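import Mathlib

set_option autoImplicit false

/-!
# Definability over expansions of the real field: closure properties

Sets and functions between types with finitely many real coordinates.
-/

open Set

namespace Run7.h860.Om

universe u v

/-- Types with finitely many real coordinates. -/
class Ctx (Γ : Type) where
  /-- the index type of the coordinates -/
  idx : Type
  /-- there are finitely many coordinates -/
  fin : Finite idx
  /-- the coordinates -/
  e : Γ ≃ (idx → ℝ)

attribute [instance] Ctx.fin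

instance ctxReal : Ctx ℝ := ⟨Unit, inferInstance, (Equiv.funUnique Unit ℝ).symm⟩

instance ctxPi {ι : Type} [Finite ι] : Ctx (ι → ℝ) := ⟨ι, inferInstance, Equiv.refl _⟩

instance ctxProd {Γ Γ' : Type} [Ctx Γ] [Ctx Γ'] : Ctx (Γ × Γ') :=
  ⟨Ctx.idx Γ ⊕ Ctx.idx Γ', inferInstance,
    (Equiv.prodCongr Ctx.e Ctx.e).trans (Equiv.sumArrowEquivProdArrow _ _ _).symm⟩

variable {Γ Γ' Γ'' : Type} [Ctx Γ] [Ctx Γ'] [Ctx Γ'']
variable (L : FirstOrder.Language.{u, v}) [L.Structure ℝ]

/-- Definable (with parameters) predicates. -/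
def DPred (P : Γ → Prop) : Prop :=
  (univ : Set ℝ).Definable L {z : Ctx.idx Γ → ℝ | P (Ctx.e.symm z)}

/-- Definable (with parameters) functions. -/
@[fun_prop]
def DFun (f : Γ → Γ') : Prop :=
  ∀ i : Ctx.idx Γ', (univ : Set ℝ).DefinableFun L
    (fun z : Ctx.idx Γ → ℝ => Ctx.e (f (Ctx.e.symm z)) i)

variable {L}

namespace DPred

theorem congr {P Q : Γ → Prop} (h : DPred L P) (hPQ : ∀ x, P x ↔ Q x) : DPred L Q := by
  have : P = Q := funext fun x => propext (hPQ x)
  rwa [← this]

theorem and {P Q : Γ → Prop} (hP : DPred L P) (hQ : DPred L Q) : DPred L (fun x => P x ∧ Q x) :=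
  Set.Definable.inter hP hQ

theorem or {P Q : Γ → Prop} (hP : DPred L P) (hQ : DPred L Q) : DPred L (fun x => P x ∨ Q x) :=
  Set.Definable.union hP hQ

theorem not {P : Γ → Prop} (hP : DPred L P) : DPred L (fun x => ¬ P x) :=
  Set.Definable.compl hP

theorem imp {P Q : Γ → Prop} (hP : DPred L P) (hQ : DPred L Q) : DPred L (fun x => P x → Q x) :=
  (hP.not.or hQ).congr fun x => by tauto

theorem iff {P Q : Γ → Prop} (hP : DPred L P) (hQ : DPred L Q) : DPred L (fun x => P x ↔ Q x) :=
  ((hP.imp hQ).and (hQ.imp hP)).congr fun x => by tauto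

theorem const (p : Prop) : DPred L (fun _ : Γ => p) := by
  unfold DPred
  by_cases h : p
  · simp [h]
  · simp [h]

theorem ex {P : Γ → Γ' → Prop} (h : DPred L (fun p : Γ × Γ' => P p.1 p.2)) :
    DPred L (fun x => ∃ y, P x y) := by
  unfold DPred at h ⊢
  have h2 := Set.Definable.exists_of_finite (α := Ctx.idx Γ) (β := Ctx.idx Γ') h
  convert h2 using 1
  ext v
  constructor
  · rintro ⟨y, hy⟩
    refine ⟨Ctx.e y, ?_⟩
    change P (Ctx.e.symm v) (Ctx.e.symm (Ctx.e y))
    rwa [Equiv.symm_apply_apply]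
  · rintro ⟨u, hu⟩
    exact ⟨Ctx.e.symm u, hu⟩

theorem all {P : Γ → Γ' → Prop} (h : DPred L (fun p : Γ × Γ' => P p.1 p.2)) :
    DPred L (fun x => ∀ y, P x y) :=
  (ex (P := fun x y => ¬ P x y) h.not).not.congr fun x => by simp

theorem allFin {ι : Type*} [Finite ι] {P : ι → Γ → Prop} (h : ∀ i, DPred L (P i)) :
    DPred L (fun x => ∀ i, P i x) := by
  have h2 := Set.definable_iInter_of_finite (fun i => h i)
  unfold DPred
  convert h2 using 1
  ext z
  simp

theorem exFin {ι : Type*} [Finite ι] {P : ι → Γ → Prop} (h : ∀ i, DPred L (P i)) :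
    DPred L (fun x => ∃ i, P i x) :=
  (allFin fun i => (h i).not).not.congr fun x => by simp

theorem comp {P : Γ' → Prop} (hP : DPred L P) {f : Γ → Γ'} (hf : DFun L f) :
    DPred L (fun x => P (f x)) := by
  unfold DPred at hP ⊢
  have := hP.preimage_map (F := fun z : Ctx.idx Γ → ℝ => Ctx.e (f (Ctx.e.symm z))) hf
  convert this using 1
  ext z
  simp

end DPred

namespace DFun

@[fun_prop]
theorem id' : DFun L (fun x : Γ => x) := by
  intro i
  simp only [Equiv.apply_symm_apply]
  fun_prop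

@[fun_prop]
theorem const (c : Γ') : DFun L (fun _ : Γ => c) := by
  intro i
  exact FirstOrder.Language.definableFun_const _ _ (mem_univ _)

@[fun_prop]
theorem comp {g : Γ' → Γ''} {f : Γ → Γ'} (hg : DFun L g) (hf : DFun L f) :
    DFun L (fun x => g (f x)) := by
  intro i
  have := Set.DefinableFun.comp (L := L) (A := univ)
    (g := fun z : Ctx.idx Γ → ℝ => Ctx.e (f (Ctx.e.symm z))) hf (hg i)
  convert this using 1
  ext z
  simp

@[fun_prop]
theorem prodMk {f : Γ → Γ'} {g : Γ → Γ''} (hf : DFun L f) (hg : DFun L g) :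
    DFun L (fun x => (f x, g x)) := by
  rintro (i | i)
  · exact hf i
  · exact hg i

theorem fst' : DFun L (fun p : Γ × Γ' => p.1) := by
  intro i
  have : (fun z : Ctx.idx (Γ × Γ') → ℝ => Ctx.e ((Ctx.e.symm z : Γ × Γ').1) i) =
      fun z => z (Sum.inl i) := by
    ext z
    change Ctx.e (Ctx.e.symm (fun j => z (Sum.inl j)) : Γ) i = _
    simp
  rw [this]
  exact Set.DefinableFun.proj L

theorem snd' : DFun L (fun p : Γ × Γ' => p.2) := by
  intro i
  have : (fun z : Ctx.idx (Γ × Γ') → ℝ => Ctx.e ((Ctx.e.symm z : Γ × Γ').2) i) =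
      fun z => z (Sum.inr i) := by
    ext z
    change Ctx.e (Ctx.e.symm (fun j => z (Sum.inr j)) : Γ') i = _
    simp
  rw [this]
  exact Set.DefinableFun.proj L

@[fun_prop]
theorem fst {f : Γ → Γ' × Γ''} (hf : DFun L f) : DFun L (fun x => (f x).1) := fst'.comp hf

@[fun_prop]
theorem snd {f : Γ → Γ' × Γ''} (hf : DFun L f) : DFun L (fun x => (f x).2) := snd'.comp hf

variable {ι : Type} [Finite ι]

@[fun_prop]
theorem apply' (i : ι) : DFun L (fun x : ι → ℝ => x i) := by
  intro j
  exact Set.DefinableFun.proj L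

theorem apply {f : Γ → ι → ℝ} (i : ι) (hf : DFun L f) : DFun L (fun x => f x i) :=
  (apply' i).comp hf

@[fun_prop]
theorem pi {f : Γ → ι → ℝ} (hf : ∀ i, DFun L (fun x => f x i)) : DFun L f := by
  intro i
  exact hf i ()

@[fun_prop]
theorem enc : DFun L (fun y : Γ => (Ctx.e y : Ctx.idx Γ → ℝ)) := by
  intro i
  change (univ : Set ℝ).DefinableFun L
    (fun z : Ctx.idx Γ → ℝ => (Ctx.e (Ctx.e.symm z : Γ) : Ctx.idx Γ → ℝ) i)
  simp only [Equiv.apply_symm_apply]
  exact Set.DefinableFun.proj L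

@[fun_prop]
theorem dec : DFun L (fun z : Ctx.idx Γ → ℝ => (Ctx.e.symm z : Γ)) := by
  intro i
  change (univ : Set ℝ).DefinableFun L
    (fun z : Ctx.idx Γ → ℝ => (Ctx.e (Ctx.e.symm z : Γ) : Ctx.idx Γ → ℝ) i)
  simp only [Equiv.apply_symm_apply]
  exact Set.DefinableFun.proj L

end DFun

theorem DPred.mem {E : Set Γ'} (hE : DPred L (fun x => x ∈ E)) {f : Γ → Γ'} (hf : DFun L f) :
    DPred L (fun x => f x ∈ E) := hE.comp hf

theorem DPred.eqR {f g : Γ → ℝ} (hf : DFun L f) (hg : DFun L g) : DPred L (fun x => f x = g x) :=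
  Set.DefinableFun.ofPred_eq (hf ()) (hg ())

theorem DPred.eq {f g : Γ → Γ'} (hf : DFun L f) (hg : DFun L g) : DPred L (fun x => f x = g x) := by
  have h : DPred L (fun x => ∀ i, (Ctx.e (f x) : Ctx.idx Γ' → ℝ) i = Ctx.e (g x) i) :=
    DPred.allFin fun i => DPred.eqR (by fun_prop) (by fun_prop)
  refine h.congr fun x => ⟨fun h1 => ?_, fun h1 i => by rw [h1]⟩
  exact Ctx.e.injective (funext h1)

/-- a function is definable if its graph is -/
theorem DFun.of_graph {f : Γ → Γ'} (h : DPred L (fun p : Γ × Γ' => f p.1 = p.2)) : DFun L f := by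
  intro i
  have h1 : DPred L (fun p : Γ × (Unit → ℝ) => ∃ y : Γ', f p.1 = y ∧ Ctx.e y i = p.2 ()) := by
    refine DPred.ex (DPred.and (h.comp (f := fun p : (Γ × (Unit → ℝ)) × Γ' => (p.1.1, p.2))
      (by fun_prop)) ?_)
    exact DPred.eqR (by fun_prop) (by fun_prop)
  unfold Set.DefinableFun
  have h5 : DPred L (fun w : Option (Ctx.idx Γ) → ℝ =>
      (fun p : Γ × (Unit → ℝ) => ∃ y : Γ', f p.1 = y ∧ Ctx.e y i = p.2 ())
        (Ctx.e.symm (fun j => w (some j)), fun _ => w none)) := by
    refine h1.comp (f := fun w : Option (Ctx.idx Γ) → ℝ =>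
      ((Ctx.e.symm (fun j => w (some j)) : Γ), fun _ : Unit => w none)) ?_
    fun_prop
  have h6 : (univ : Set ℝ).Definable L {w : Option (Ctx.idx Γ) → ℝ |
      ∃ y : Γ', f (Ctx.e.symm (fun j => w (some j))) = y ∧ Ctx.e y i = w none} := h5
  convert h6 using 1
  ext w
  simp [Function.tupleGraph, Function.comp_def, eq_comm]

theorem DFun.graph {f : Γ → Γ'} (h : DFun L f) : DPred L (fun p : Γ × Γ' => f p.1 = p.2) :=
  DPred.eq (by fun_prop) (by fun_prop)

variable (L) in
/-- The structure `ℝ` is an o-minimal expansion of the real field: the order, the addition and the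
multiplication are definable, and every definable set of real numbers is a finite union of
intervals (points included). -/
class OMin : Prop where
  /-- the order is definable -/
  lt : (univ : Set ℝ).Definable L {x : Fin 2 → ℝ | x 0 < x 1}
  /-- the addition is definable -/
  add : (univ : Set ℝ).Definable L {x : Fin 3 → ℝ | x 0 + x 1 = x 2}
  /-- the multiplication is definable -/
  mul : (univ : Set ℝ).Definable L {x : Fin 3 → ℝ | x 0 * x 1 = x 2}
  /-- definable sets of real numbers are finite unions of intervals -/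
  omin : ∀ S : Set ℝ, (univ : Set ℝ).Definable L {x : Fin 1 → ℝ | x 0 ∈ S} →
    ∃ F : Set (Set ℝ), F.Finite ∧ (∀ I ∈ F, I.OrdConnected) ∧ S = ⋃₀ F

section

variable [OMin L]

theorem DPred.lt {f g : Γ → ℝ} (hf : DFun L f) (hg : DFun L g) : DPred L (fun x => f x < g x) := by
  have h : DPred L (fun x : Fin 2 → ℝ => x 0 < x 1) := OMin.lt
  refine h.comp (f := fun x => ![f x, g x]) (DFun.pi fun i => ?_)
  fin_cases i
  · exact hf
  · exact hg

theorem DPred.le {f g : Γ → ℝ} (hf : DFun L f) (hg : DFun L g) : DPred L (fun x => f x ≤ g x) :=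
  (DPred.lt hg hf).not.congr fun x => not_lt

@[fun_prop]
theorem DFun.add {f g : Γ → ℝ} (hf : DFun L f) (hg : DFun L g) : DFun L (fun x => f x + g x) := by
  have h : DPred L (fun x : Fin 3 → ℝ => x 0 + x 1 = x 2) := OMin.add
  refine DFun.of_graph ?_
  refine h.comp (f := fun p : Γ × ℝ => ![f p.1, g p.1, p.2]) (DFun.pi fun i => ?_)
  fin_cases i
  · exact hf.comp (by fun_prop)
  · exact hg.comp (by fun_prop)
  · exact DFun.snd'

@[fun_prop]
theorem DFun.mul {f g : Γ → ℝ} (hf : DFun L f) (hg : DFun L g) : DFun L (fun x => f x * g x) := by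
  have h : DPred L (fun x : Fin 3 → ℝ => x 0 * x 1 = x 2) := OMin.mul
  refine DFun.of_graph ?_
  refine h.comp (f := fun p : Γ × ℝ => ![f p.1, g p.1, p.2]) (DFun.pi fun i => ?_)
  fin_cases i
  · exact hf.comp (by fun_prop)
  · exact hg.comp (by fun_prop)
  · exact DFun.snd'

@[fun_prop]
theorem DFun.neg {f : Γ → ℝ} (hf : DFun L f) : DFun L (fun x => -f x) := by
  have : (fun x => -f x) = fun x => (-1) * f x := by ext x; ring
  rw [this]; fun_prop

@[fun_prop]
theorem DFun.sub {f g : Γ → ℝ} (hf : DFun L f) (hg : DFun L g) : DFun L (fun x => f x - g x) := by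
  have : (fun x => f x - g x) = fun x => f x + -g x := by ext x; ring
  rw [this]; fun_prop

@[fun_prop]
theorem DFun.div_const {f : Γ → ℝ} (hf : DFun L f) (c : ℝ) : DFun L (fun x => f x / c) := by
  have : (fun x => f x / c) = fun x => f x * c⁻¹ := by ext x; rw [div_eq_mul_inv]
  rw [this]; fun_prop

theorem DFun.ite {P : Γ → Prop} (hP : DPred L P) {f g : Γ → Γ'} (hf : DFun L f) (hg : DFun L g)
    [∀ x, Decidable (P x)] : DFun L (fun x => if P x then f x else g x) := by
  refine DFun.of_graph ?_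
  have h : DPred L (fun p : Γ × Γ' => (P p.1 ∧ f p.1 = p.2) ∨ (¬ P p.1 ∧ g p.1 = p.2)) :=
    ((hP.comp (by fun_prop)).and (DPred.eq (by fun_prop) (by fun_prop))).or
      ((hP.comp (by fun_prop)).not.and (DPred.eq (by fun_prop) (by fun_prop)))
  refine h.congr fun p => ?_
  by_cases hp : P p.1 <;> simp [hp]

@[fun_prop]
theorem DFun.abs {f : Γ → ℝ} (hf : DFun L f) : DFun L (fun x => |f x|) := by
  classical
  have h : DFun L (fun x => if f x < 0 then -f x else f x) :=
    DFun.ite (DPred.lt hf (DFun.const 0)) (by fun_prop) hf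
  convert h using 1
  ext x
  split_ifs with h1
  · exact abs_of_neg h1
  · exact abs_of_nonneg (not_lt.1 h1)

end

end Run7.h860.Om
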