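import Pool.Agent.Run7.h860.Om.Unif

set_option autoImplicit false

/-!
# Definable sets with finite fibres are finite unions of graphs of definable maps
-/

open Set Filter Topology MeasureTheory

namespace Run7.h860.Om

universe u v

variable {L : FirstOrder.Language.{u, v}} [L.Structure ℝ] [OMin L]
variable {Γ : Type} [Ctx Γ] {d : ℕ}

/-- finiteness of a definable set in elementary terms: no coordinate takes the values of an
interval -/
theorem finite_iff {S : Set (Fin d → ℝ)} (hS : DPred L (fun x => x ∈ S)) :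
    S.Finite ↔ ∀ j : Fin d, ¬ ∃ a b : ℝ, a < b ∧ ∀ x : ℝ, a < x → x < b → ∃ v : Fin d → ℝ,
      v ∈ S ∧ v j = x := by
  have hD : ∀ j : Fin d, DPred L (fun x : ℝ => x ∈ {x : ℝ | ∃ v : Fin d → ℝ, v ∈ S ∧ v j = x}) := by
    intro j
    refine DPred.ex (DPred.and (hS.mem (f := fun p : ℝ × (Fin d → ℝ) => p.2) (by fun_prop))
      (DPred.eq (by fun_prop) (by fun_prop)))
  constructor
  · rintro hf j ⟨a, b, hab, h⟩
    have h1 : {x : ℝ | ∃ v : Fin d → ℝ, v ∈ S ∧ v j = x}.Finite := by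
      have : {x : ℝ | ∃ v : Fin d → ℝ, v ∈ S ∧ v j = x} = (fun v => v j) '' S := by
        ext x; simp
      rw [this]; exact hf.image _
    exact (Ioo_infinite hab) (h1.subset fun x hx => h x hx.1 hx.2)
  · intro h
    have hfin : ∀ j : Fin d, {x : ℝ | ∃ v : Fin d → ℝ, v ∈ S ∧ v j = x}.Finite := by
      intro j
      refine finite_of_no_Ioo (hD j) fun a b hab hsub => h j ⟨a, b, hab, fun x h1 h2 => hsub ⟨h1, h2⟩⟩
    refine (Set.Finite.pi' (t := fun j => {x : ℝ | ∃ v : Fin d → ℝ, v ∈ S ∧ v j = x}) hfin).subset ?_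
    intro v hv j
    exact ⟨v, hv, rfl⟩

/-- the points with finite fibres form a definable set -/
theorem finiteFibre_def {A : Set (Γ × (Fin d → ℝ))} (hA : DPred L (fun p => p ∈ A)) :
    DPred L (fun γ : Γ => {v | (γ, v) ∈ A}.Finite) := by
  have h : DPred L (fun γ : Γ => ∀ j : Fin d, ¬ ∃ a b : ℝ, a < b ∧ ∀ x : ℝ, a < x → x < b →
      ∃ v : Fin d → ℝ, (γ, v) ∈ A ∧ v j = x) := by
    refine DPred.allFin fun j => DPred.not (DPred.ex (DPred.ex (DPred.and
      (DPred.lt (by fun_prop) (by fun_prop)) (DPred.all (DPred.imp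
      (DPred.lt (by fun_prop) (by fun_prop)) (DPred.imp (DPred.lt (by fun_prop) (by fun_prop))
      (DPred.ex (DPred.and (hA.mem (f := fun p : (((Γ × ℝ) × ℝ) × ℝ) × (Fin d → ℝ) =>
      (p.1.1.1.1, p.2)) (by fun_prop)) (DPred.eq (by fun_prop) (by fun_prop))))))))))
  refine h.congr fun γ => ?_
  exact (finite_iff (L := L) (S := {v | (γ, v) ∈ A})
    (hA.mem (f := fun v : Fin d → ℝ => (γ, v)) (by fun_prop))).symm

/-- **Definable families of finite sets are finite unions of definable functions.** -/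
theorem exists_branches {A : Set (Γ × (Fin d → ℝ))} (hA : DPred L (fun p => p ∈ A)) :
    ∃ (K : ℕ) (q : ℕ → Γ → Fin d → ℝ), (∀ k, DFun L (q k)) ∧
      (∀ γ, (∃ w, (γ, w) ∈ A) → (γ, q 0 γ) ∈ A) ∧
      ∀ γ, {v | (γ, v) ∈ A}.Finite → ∀ v, (γ, v) ∈ A → ∃ k < K, v = q k γ := by
  -- iterated choice
  have hch : ∀ B : {B : Set (Γ × (Fin d → ℝ)) // DPred L (fun p => p ∈ B)},
      ∃ q : Γ → Fin d → ℝ, DFun L q ∧ ∀ γ, {v | (γ, v) ∈ B.1}.Nonempty → (γ, q γ) ∈ B.1 :=
    fun B => choice (L := L) d Γ B.1 B.2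
  choose Q hQD hQm using hch
  have hstep : ∀ B : {B : Set (Γ × (Fin d → ℝ)) // DPred L (fun p => p ∈ B)},
      DPred L (fun p => p ∈ {p : Γ × (Fin d → ℝ) | p ∈ B.1 ∧ p.2 ≠ Q B p.1}) := by
    intro B
    have := hQD B
    exact B.2.and (DPred.eq (by fun_prop) (by fun_prop)).not
  set S : ℕ → {B : Set (Γ × (Fin d → ℝ)) // DPred L (fun p => p ∈ B)} := fun k =>
    Nat.rec ⟨A, hA⟩ (fun _ B => ⟨{p | p ∈ B.1 ∧ p.2 ≠ Q B p.1}, hstep B⟩) k with hS
  have hS0 : (S 0).1 = A := rfl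
  have hSs : ∀ k, (S (k + 1)).1 = {p | p ∈ (S k).1 ∧ p.2 ≠ Q (S k) p.1} := fun k => rfl
  have hsub : ∀ k, (S k).1 ⊆ A := by
    intro k
    induction k with
    | zero => exact subset_rfl
    | succ k ih => exact fun p hp => ih hp.1
  -- uniform bound for the finite fibres
  obtain ⟨K, hK⟩ := uniform_finite (L := L) (A := {p : Γ × (Fin d → ℝ) | p ∈ A ∧
      {v | (p.1, v) ∈ A}.Finite}) (hA.and ((finiteFibre_def hA).comp (by fun_prop))) (by
    intro γ
    by_cases h : {v | (γ, v) ∈ A}.Finite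
    · exact h.countable.mono fun v hv => hv.1
    · have : {v | (γ, v) ∈ {p : Γ × (Fin d → ℝ) | p ∈ A ∧ {v | (p.1, v) ∈ A}.Finite}} = ∅ := by
        ext v; simp [h]
      rw [this]; exact countable_empty)
  refine ⟨K, fun k => Q (S k), fun k => hQD _, ?_, ?_⟩
  · rintro γ ⟨v, hv⟩
    exact hQm (S 0) γ ⟨v, hv⟩
  · intro γ hfin v hv
    by_contra hno
    push Not at hno
    have hvS : ∀ k ≤ K, (γ, v) ∈ (S k).1 := by
      intro k
      induction k with
      | zero => intro _; exact hv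
      | succ k ih => intro hk; exact ⟨ih (by omega), hno k (by omega)⟩
    have hcard : ∀ k ≤ K + 1, {v | (γ, v) ∈ (S k).1}.ncard + k = {v | (γ, v) ∈ A}.ncard := by
      intro k
      induction k with
      | zero => intro _; rfl
      | succ k ih =>
        intro hk
        have h1 := ih (by omega)
        have h2 : {v | (γ, v) ∈ (S (k + 1)).1} = {v | (γ, v) ∈ (S k).1} \ {Q (S k) γ} := by
          rw [hSs]; ext w; rfl
        have h3 : Q (S k) γ ∈ {v | (γ, v) ∈ (S k).1} := hQm (S k) γ ⟨v, hvS k (by omega)⟩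
        have hfk : {v | (γ, v) ∈ (S k).1}.Finite := hfin.subset fun w hw => hsub k hw
        have h4 : 0 < {v | (γ, v) ∈ (S k).1}.ncard := (ncard_pos hfk).2 ⟨_, h3⟩
        rw [h2, ncard_sdiff_singleton_of_mem h3]
        omega
    have h5 := hcard (K + 1) le_rfl
    have h6 : {v | (γ, v) ∈ A}.ncard ≤ K := by
      have h7 := hK γ
      have h8 : {v | (γ, v) ∈ {p : Γ × (Fin d → ℝ) | p ∈ A ∧ {v | (p.1, v) ∈ A}.Finite}} =
          {v | (γ, v) ∈ A} := by
        ext w; simp [hfin]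
      rw [h8, ← hfin.cast_ncard_eq] at h7
      exact_mod_cast h7
    omega

end Run7.h860.Om
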