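import Pool.Agent.Run7.h860.Om.Smooth

set_option autoImplicit false

/-!
# Uniform finiteness and definable choice
-/

open Set Filter Topology MeasureTheory

namespace Run7.h860.Om

universe u v

variable {L : FirstOrder.Language.{u, v}} [L.Structure ℝ] [OMin L]
variable {Γ : Type} [Ctx Γ]

/-! ### Representatives of the components of the complement of a finite set -/

/-- representatives of the components of the complement of `P`, and the points of `P` -/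
def reps (P : Set ℝ) : Set ℝ :=
  {x | (∃ a b, a ∈ P ∧ b ∈ P ∧ x = (a + b) / 2) ∨ (∃ a, a ∈ P ∧ (x = a + 1 ∨ x = a - 1)) ∨ x = 0}

theorem reps_finite {P : Set ℝ} (hP : P.Finite) : (reps P).Finite := by
  have h1 : reps P = ((fun q : ℝ × ℝ => (q.1 + q.2) / 2) '' (P ×ˢ P)) ∪
      (((fun a => a + 1) '' P ∪ (fun a => a - 1) '' P) ∪ {0}) := by
    ext x
    simp only [reps, mem_ofPred_eq, mem_union, mem_image, mem_prod, Prod.exists, mem_singleton_iff]
    constructor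
    · rintro (⟨a, b, ha, hb, rfl⟩ | ⟨a, ha, (rfl | rfl)⟩ | rfl)
      · exact Or.inl ⟨a, b, ⟨ha, hb⟩, rfl⟩
      · exact Or.inr (Or.inl (Or.inl ⟨a, ha, rfl⟩))
      · exact Or.inr (Or.inl (Or.inr ⟨a, ha, rfl⟩))
      · exact Or.inr (Or.inr rfl)
    · rintro (⟨a, b, ⟨ha, hb⟩, rfl⟩ | ((⟨a, ha, rfl⟩ | ⟨a, ha, rfl⟩) | rfl))
      · exact Or.inl ⟨a, b, ha, hb, rfl⟩
      · exact Or.inr (Or.inl ⟨a, ha, Or.inl rfl⟩)
      · exact Or.inr (Or.inl ⟨a, ha, Or.inr rfl⟩)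
      · exact Or.inr (Or.inr rfl)
  rw [h1]
  exact ((hP.prod hP).image _).union (((hP.image _).union (hP.image _)).union (finite_singleton _))

theorem exists_rep {P : Set ℝ} (hP : P.Finite) (x : ℝ) :
    ∃ x' ∈ reps P, x' = x ∨ ∃ I : Set ℝ, IsPreconnected I ∧ I ∩ P = ∅ ∧ x ∈ I ∧ x' ∈ I := by
  by_cases hx : x ∈ P
  · exact ⟨x, Or.inl ⟨x, x, hx, hx, by ring⟩, Or.inl rfl⟩
  have h1 : (P ∩ Iio x).Finite := hP.subset inter_subset_left
  have h2 : (P ∩ Ioi x).Finite := hP.subset inter_subset_left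
  rcases (P ∩ Iio x).eq_empty_or_nonempty with he1 | hn1 <;>
  rcases (P ∩ Ioi x).eq_empty_or_nonempty with he2 | hn2
  · refine ⟨0, Or.inr (Or.inr rfl), Or.inr ⟨univ, isPreconnected_univ, ?_, mem_univ _, mem_univ _⟩⟩
    rw [univ_inter, eq_empty_iff_forall_notMem]
    intro y hy
    rcases lt_trichotomy y x with h | h | h
    · exact eq_empty_iff_forall_notMem.1 he1 y ⟨hy, h⟩
    · exact hx (h ▸ hy)
    · exact eq_empty_iff_forall_notMem.1 he2 y ⟨hy, h⟩
  · obtain ⟨b, hb, hbmin⟩ := h2.exists_minimalFor id _ hn2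
    refine ⟨b - 1, Or.inr (Or.inl ⟨b, hb.1, Or.inr rfl⟩), Or.inr ⟨Iio b, isPreconnected_Iio, ?_,
      hb.2, by simp⟩⟩
    rw [eq_empty_iff_forall_notMem]
    rintro y ⟨hy1, hy2⟩
    rcases lt_trichotomy y x with h | h | h
    · exact eq_empty_iff_forall_notMem.1 he1 y ⟨hy2, h⟩
    · exact hx (h ▸ hy2)
    · exact absurd (hbmin ⟨hy2, h⟩ (le_of_lt hy1)) (not_le.2 hy1)
  · obtain ⟨a, ha, hamax⟩ := h1.exists_maximalFor id _ hn1
    refine ⟨a + 1, Or.inr (Or.inl ⟨a, ha.1, Or.inl rfl⟩), Or.inr ⟨Ioi a, isPreconnected_Ioi, ?_,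
      ha.2, by simp⟩⟩
    rw [eq_empty_iff_forall_notMem]
    rintro y ⟨hy1, hy2⟩
    rcases lt_trichotomy y x with h | h | h
    · exact absurd (hamax ⟨hy2, h⟩ (le_of_lt hy1)) (not_le.2 hy1)
    · exact hx (h ▸ hy2)
    · exact eq_empty_iff_forall_notMem.1 he2 y ⟨hy2, h⟩
  · obtain ⟨b, hb, hbmin⟩ := h2.exists_minimalFor id _ hn2
    obtain ⟨a, ha, hamax⟩ := h1.exists_maximalFor id _ hn1
    have hab : a < b := lt_trans ha.2 hb.2
    refine ⟨(a + b) / 2, Or.inl ⟨a, b, ha.1, hb.1, rfl⟩, Or.inr ⟨Ioo a b, isPreconnected_Ioo, ?_,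
      ⟨ha.2, hb.2⟩, ⟨by linarith, by linarith⟩⟩⟩
    rw [eq_empty_iff_forall_notMem]
    rintro y ⟨hy1, hy2⟩
    rcases lt_trichotomy y x with h | h | h
    · exact absurd (hamax ⟨hy2, h⟩ (le_of_lt hy1.1)) (not_le.2 hy1.1)
    · exact hx (h ▸ hy2)
    · exact absurd (hbmin ⟨hy2, h⟩ (le_of_lt hy1.2)) (not_le.2 hy1.2)

theorem reps_def {P : Set (Γ × ℝ)} (hP : DPred L (fun p => p ∈ P)) :
    DPred L (fun p : Γ × ℝ => p.2 ∈ reps {x | (p.1, x) ∈ P}) := by
  have h : DPred L (fun p : Γ × ℝ =>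
      (∃ a b : ℝ, (p.1, a) ∈ P ∧ (p.1, b) ∈ P ∧ p.2 = (a + b) / 2) ∨
      (∃ a : ℝ, (p.1, a) ∈ P ∧ (p.2 = a + 1 ∨ p.2 = a - 1)) ∨ p.2 = 0) := by
    refine DPred.or (DPred.ex (DPred.ex (DPred.and (hP.mem (f := fun p : ((Γ × ℝ) × ℝ) × ℝ =>
      (p.1.1.1, p.1.2)) (by fun_prop)) (DPred.and (hP.mem (f := fun p : ((Γ × ℝ) × ℝ) × ℝ =>
      (p.1.1.1, p.2)) (by fun_prop)) (DPred.eq (by fun_prop) (by fun_prop)))))) (DPred.or (DPred.ex
      (DPred.and (hP.mem (f := fun p : (Γ × ℝ) × ℝ => (p.1.1, p.2)) (by fun_prop))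
      (DPred.or (DPred.eq (by fun_prop) (by fun_prop)) (DPred.eq (by fun_prop) (by fun_prop)))))
      (DPred.eq (by fun_prop) (by fun_prop)))
  exact h

/-! ### Frontiers and discontinuities in one variable -/

theorem interior_def1 {S : Set ℝ} (hS : DPred L (fun x => x ∈ S)) :
    DPred L (fun x => x ∈ interior S) := by
  have h : DPred L (fun x : ℝ => ∃ ε : ℝ, 0 < ε ∧ ∀ y : ℝ, |y - x| < ε → y ∈ S) := by
    refine DPred.ex (DPred.and (DPred.lt (by fun_prop) (by fun_prop)) (DPred.all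
      (DPred.imp (DPred.lt (by fun_prop) (by fun_prop)) (hS.mem (by fun_prop)))))
  refine h.congr fun x => ?_
  rw [mem_interior_iff_mem_nhds, Metric.mem_nhds_iff]
  constructor
  · rintro ⟨ε, hε, h1⟩
    exact ⟨ε, hε, fun y hy => h1 y (by simpa [Real.dist_eq] using hy)⟩
  · rintro ⟨ε, hε, h1⟩
    exact ⟨ε, hε, fun y hy => h1 (by simpa [Real.dist_eq] using hy)⟩

theorem diff_interior_finite {S : Set ℝ} (hS : DPred L (fun x => x ∈ S)) :
    (S \ interior S).Finite := by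
  refine finite_of_no_Ioo (hS.and (interior_def1 hS).not) fun a b hab hsub => ?_
  obtain ⟨x, hx⟩ := nonempty_Ioo.2 hab
  exact (hsub hx).2 (interior_maximal (fun y hy => (hsub hy).1) isOpen_Ioo hx)

theorem countable_not_continuousAt {f : ℝ → ℝ} (hf : DFun L f) :
    {x | ¬ ContinuousAt f x}.Countable := by
  set S : ℚ × ℚ → Set ℝ := fun q => {x | (q.1 : ℝ) < f x ∧ f x < q.2} with hS
  have hSD : ∀ q, DPred L (fun x => x ∈ S q) := fun q =>
    (DPred.lt (by fun_prop) hf).and (DPred.lt hf (by fun_prop))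
  refine (countable_iUnion fun q => (diff_interior_finite (hSD q)).countable).mono ?_
  intro x hx
  simp only [mem_ofPred_eq] at hx
  rw [mem_iUnion]
  by_contra hno
  push Not at hno
  refine hx ?_
  rw [Metric.continuousAt_iff']
  intro ε hε
  obtain ⟨p, hp1, hp2⟩ := exists_rat_btwn (show f x - ε < f x by linarith)
  obtain ⟨q, hq1, hq2⟩ := exists_rat_btwn (show f x < f x + ε by linarith)
  have h1 := hno (p, q)
  have h2 : x ∈ S (p, q) := ⟨hp2, hq1⟩
  have h3 : x ∈ interior (S (p, q)) := by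
    by_contra h4; exact h1 ⟨h2, h4⟩
  filter_upwards [mem_interior_iff_mem_nhds.1 h3] with y hy
  rw [Real.dist_eq, abs_lt]
  constructor
  · linarith [hy.1]
  · linarith [hy.2]

/-! ### Smallest elements of the fibres -/

open Classical in
/-- the smallest element of the fibre, if it exists -/
noncomputable def mn (B : Set (Γ × ℝ)) (γ : Γ) : ℝ :=
  if h : ∃ y, (γ, y) ∈ B ∧ ∀ z, (γ, z) ∈ B → y ≤ z then Classical.choose h else 0

theorem mn_def {B : Set (Γ × ℝ)} (hB : DPred L (fun p => p ∈ B)) : DFun L (mn B) := by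
  refine DFun.of_graph ?_
  have h1 : DPred L (fun p : Γ × ℝ => (p.1, p.2) ∈ B ∧ ∀ z : ℝ, (p.1, z) ∈ B → p.2 ≤ z) := by
    refine DPred.and hB (DPred.all (DPred.imp (hB.mem (f := fun p : (Γ × ℝ) × ℝ => (p.1.1, p.2))
      (by fun_prop)) (DPred.le (by fun_prop) (by fun_prop))))
  have h2 : DPred L (fun γ : Γ => ∃ y : ℝ, (γ, y) ∈ B ∧ ∀ z : ℝ, (γ, z) ∈ B → y ≤ z) :=
    DPred.ex h1
  have h3 : DPred L (fun p : Γ × ℝ => ((p.1, p.2) ∈ B ∧ ∀ z : ℝ, (p.1, z) ∈ B → p.2 ≤ z) ∨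
      ((¬ ∃ y : ℝ, (p.1, y) ∈ B ∧ ∀ z : ℝ, (p.1, z) ∈ B → y ≤ z) ∧ p.2 = 0)) :=
    h1.or ((h2.comp (f := fun p : Γ × ℝ => p.1) (by fun_prop)).not.and
      (DPred.eq (by fun_prop) (by fun_prop)))
  refine h3.congr fun p => ?_
  unfold mn
  constructor
  · rintro (⟨h4, h5⟩ | ⟨h4, h5⟩)
    · have hex : ∃ y : ℝ, (p.1, y) ∈ B ∧ ∀ z : ℝ, (p.1, z) ∈ B → y ≤ z := ⟨p.2, h4, h5⟩
      rw [dif_pos hex]
      have := Classical.choose_spec hex
      exact le_antisymm (this.2 _ h4) (h5 _ this.1)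
    · rw [dif_neg h4, h5]
  · intro h
    by_cases hex : ∃ y : ℝ, (p.1, y) ∈ B ∧ ∀ z : ℝ, (p.1, z) ∈ B → y ≤ z
    · rw [dif_pos hex] at h
      left
      have := Classical.choose_spec hex
      rw [h] at this
      exact this
    · rw [dif_neg hex] at h
      exact Or.inr ⟨hex, h.symm⟩

omit [Ctx Γ] in
theorem mn_mem {B : Set (Γ × ℝ)} {γ : Γ} (hf : {y | (γ, y) ∈ B}.Finite)
    (hn : {y | (γ, y) ∈ B}.Nonempty) : (γ, mn B γ) ∈ B := by
  obtain ⟨y, hy, hmin⟩ := hf.exists_minimalFor id _ hn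
  have hex : ∃ y : ℝ, (γ, y) ∈ B ∧ ∀ z : ℝ, (γ, z) ∈ B → y ≤ z := by
    refine ⟨y, hy, fun z hz => ?_⟩
    by_contra h
    push Not at h
    exact absurd (hmin hz h.le) (not_le.2 h)
  unfold mn
  rw [dif_pos hex]
  exact (Classical.choose_spec hex).1

/-! ### Branches -/

/-- removing the smallest elements -/
noncomputable def peel (A : Set (ℝ × ℝ)) : ℕ → Set (ℝ × ℝ)
  | 0 => A
  | k + 1 => {p | p ∈ peel A k ∧ p.2 ≠ mn (peel A k) p.1}

theorem peel_def {A : Set (ℝ × ℝ)} (hA : DPred L (fun p => p ∈ A)) (k : ℕ) :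
    DPred L (fun p => p ∈ peel A k) := by
  induction k with
  | zero => exact hA
  | succ k ih =>
    have hm := mn_def ih
    exact ih.and (DPred.eq (by fun_prop) (by fun_prop)).not

theorem peel_sub (A : Set (ℝ × ℝ)) {k l : ℕ} (h : k ≤ l) : peel A l ⊆ peel A k := by
  induction l, h using Nat.le_induction with
  | base => exact subset_rfl
  | succ l _ ih => exact fun p hp => ih hp.1

theorem peel_fin {A : Set (ℝ × ℝ)} {x : ℝ} (hf : {y | (x, y) ∈ A}.Finite) (k : ℕ) :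
    {y | (x, y) ∈ peel A k}.Finite :=
  hf.subset fun _ hy => peel_sub A (Nat.zero_le k) hy

theorem peel_ncard {A : Set (ℝ × ℝ)} {x : ℝ} (hf : {y | (x, y) ∈ A}.Finite) (k : ℕ) :
    {y | (x, y) ∈ peel A k}.ncard = {y | (x, y) ∈ A}.ncard - k := by
  induction k with
  | zero => rfl
  | succ k ih =>
    have h1 : {y | (x, y) ∈ peel A (k + 1)} = {y | (x, y) ∈ peel A k} \ {mn (peel A k) x} := by
      ext y; rfl
    rcases ({y | (x, y) ∈ peel A k}).eq_empty_or_nonempty with he | hn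
    · rw [h1, he, empty_sdiff, ncard_empty]
      rw [he, ncard_empty] at ih
      omega
    · rw [h1, ncard_sdiff_singleton_of_mem (show mn (peel A k) x ∈ {y | (x, y) ∈ peel A k} from
        mn_mem (peel_fin hf k) hn), ih]
      omega

theorem peel_nonempty_iff {A : Set (ℝ × ℝ)} {x : ℝ} (hf : {y | (x, y) ∈ A}.Finite) (k : ℕ) :
    {y | (x, y) ∈ peel A k}.Nonempty ↔ k < {y | (x, y) ∈ A}.ncard := by
  rw [← ncard_pos (peel_fin hf k), peel_ncard hf]
  omega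

theorem branch_mem {A : Set (ℝ × ℝ)} {x : ℝ} (hf : {y | (x, y) ∈ A}.Finite) {k : ℕ}
    (hk : k < {y | (x, y) ∈ A}.ncard) : (x, mn (peel A k) x) ∈ peel A k :=
  mn_mem (peel_fin hf k) ((peel_nonempty_iff hf k).2 hk)

theorem branch_inj {A : Set (ℝ × ℝ)} {x : ℝ} (hf : {y | (x, y) ∈ A}.Finite) {i j : ℕ}
    (hj : j < {y | (x, y) ∈ A}.ncard) (hij : i < j) : mn (peel A i) x ≠ mn (peel A j) x := by
  intro h
  have h1 : (x, mn (peel A j) x) ∈ peel A (i + 1) := peel_sub A hij (branch_mem hf hj)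
  exact h1.2 h.symm

theorem branch_surj {A : Set (ℝ × ℝ)} {x y : ℝ} (hf : {y | (x, y) ∈ A}.Finite) (hy : (x, y) ∈ A) :
    ∃ i < {y | (x, y) ∈ A}.ncard, y = mn (peel A i) x := by
  by_contra hno
  push Not at hno
  have h1 : ∀ k ≤ {y | (x, y) ∈ A}.ncard, (x, y) ∈ peel A k := by
    intro k
    induction k with
    | zero => intro _; exact hy
    | succ k ih => intro hk; exact ⟨ih (by omega), hno k (by omega)⟩
  have h2 : {y | (x, y) ∈ peel A ({y | (x, y) ∈ A}.ncard)}.Nonempty := ⟨y, h1 _ le_rfl⟩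
  rw [peel_nonempty_iff hf] at h2
  exact lt_irrefl _ h2

/-! ### Local triviality -/

/-- the fibres near `x` are in bijection with the fibre over `x` -/
def Good (A : Set ((Γ × ℝ) × ℝ)) (p : Γ × ℝ) : Prop :=
  ∃ δ : ℝ, 0 < δ ∧ ∃ ε : ℝ, 0 < ε ∧ ∀ x' : ℝ, |x' - p.2| < ε →
    (∀ y' : ℝ, ((p.1, x'), y') ∈ A → ∃ y : ℝ, ((p.1, p.2), y) ∈ A ∧ |y - y'| < δ ∧
      ∀ z : ℝ, ((p.1, p.2), z) ∈ A → |z - y'| < δ → z = y) ∧
    (∀ y : ℝ, ((p.1, p.2), y) ∈ A → ∃ y' : ℝ, ((p.1, x'), y') ∈ A ∧ |y - y'| < δ ∧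
      ∀ z : ℝ, ((p.1, x'), z) ∈ A → |y - z| < δ → z = y')

theorem good_def {A : Set ((Γ × ℝ) × ℝ)} (hA : DPred L (fun p => p ∈ A)) :
    DPred L (fun p : Γ × ℝ => Good A p) := by
  unfold Good
  refine DPred.ex (DPred.and (DPred.lt (by fun_prop) (by fun_prop)) (DPred.ex (DPred.and
    (DPred.lt (by fun_prop) (by fun_prop)) (DPred.all (DPred.imp
    (DPred.lt (by fun_prop) (by fun_prop)) (DPred.and ?_ ?_))))))
  · refine DPred.all (DPred.imp (hA.mem (f := fun p : ((((Γ × ℝ) × ℝ) × ℝ) × ℝ) × ℝ =>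
      ((p.1.1.1.1.1, p.1.2), p.2)) (by fun_prop)) (DPred.ex (DPred.and
      (hA.mem (f := fun p : (((((Γ × ℝ) × ℝ) × ℝ) × ℝ) × ℝ) × ℝ =>
      ((p.1.1.1.1.1.1, p.1.1.1.1.1.2), p.2)) (by fun_prop)) (DPred.and
      (DPred.lt (by fun_prop) (by fun_prop)) (DPred.all (DPred.imp
      (hA.mem (f := fun p : ((((((Γ × ℝ) × ℝ) × ℝ) × ℝ) × ℝ) × ℝ) × ℝ =>
      ((p.1.1.1.1.1.1.1, p.1.1.1.1.1.1.2), p.2)) (by fun_prop)) (DPred.imp
      (DPred.lt (by fun_prop) (by fun_prop)) (DPred.eq (by fun_prop) (by fun_prop)))))))))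
  · refine DPred.all (DPred.imp (hA.mem (f := fun p : ((((Γ × ℝ) × ℝ) × ℝ) × ℝ) × ℝ =>
      ((p.1.1.1.1.1, p.1.1.1.1.2), p.2)) (by fun_prop)) (DPred.ex (DPred.and
      (hA.mem (f := fun p : (((((Γ × ℝ) × ℝ) × ℝ) × ℝ) × ℝ) × ℝ =>
      ((p.1.1.1.1.1.1, p.1.1.2), p.2)) (by fun_prop)) (DPred.and
      (DPred.lt (by fun_prop) (by fun_prop)) (DPred.all (DPred.imp
      (hA.mem (f := fun p : ((((((Γ × ℝ) × ℝ) × ℝ) × ℝ) × ℝ) × ℝ) × ℝ =>
      ((p.1.1.1.1.1.1.1, p.1.1.1.2), p.2)) (by fun_prop)) (DPred.imp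
      (DPred.lt (by fun_prop) (by fun_prop)) (DPred.eq (by fun_prop) (by fun_prop)))))))))

omit [Ctx Γ] in
/-- the number of points of the fibres is locally constant at good points -/
theorem Good.ncard_eq {A : Set ((Γ × ℝ) × ℝ)} {p : Γ × ℝ} (h : Good A p) :
    ∀ᶠ x' in 𝓝 p.2, {y | ((p.1, x'), y) ∈ A}.ncard = {y | ((p.1, p.2), y) ∈ A}.ncard := by
  obtain ⟨δ, hδ, ε, hε, h1⟩ := h
  refine Metric.eventually_nhds_iff.2 ⟨ε, hε, fun x' hx' => ?_⟩
  obtain ⟨h2, h3⟩ := h1 x' (by simpa [Real.dist_eq] using hx')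
  choose! f hf1 hf2 hf3 using h2
  have hinj : InjOn f {y | ((p.1, x'), y) ∈ A} := by
    intro a ha b hb hab
    obtain ⟨y', hy1, hy2, hy3⟩ := h3 (f a) (hf1 a ha)
    rw [hy3 a ha (hf2 a ha), hy3 b hb (by rw [hab]; exact hf2 b hb)]
  have himg : f '' {y | ((p.1, x'), y) ∈ A} = {y | ((p.1, p.2), y) ∈ A} := by
    ext y
    constructor
    · rintro ⟨a, ha, rfl⟩; exact hf1 a ha
    · intro hy
      obtain ⟨y', hy1, hy2, hy3⟩ := h3 y hy
      exact ⟨y', hy1, (hf3 y' hy1 y hy hy2).symm⟩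
  rw [← himg, hinj.ncard_image]

/-- the bad points of a family over the line are finite in number -/
theorem bad_finite {A : Set ((Γ × ℝ) × ℝ)} (hA : DPred L (fun p => p ∈ A)) (γ : Γ)
    (hf : ∀ x, {y | ((γ, x), y) ∈ A}.Finite) : {x | ¬ Good A (γ, x)}.Finite := by
  set B : Set (ℝ × ℝ) := {q | ((γ, q.1), q.2) ∈ A} with hB
  have hBD : DPred L (fun q => q ∈ B) := hA.mem (f := fun q : ℝ × ℝ => ((γ, q.1), q.2)) (by fun_prop)
  have hBf : ∀ x, {y | (x, y) ∈ B}.Finite := hf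
  have hbadD : DPred L (fun x : ℝ => x ∈ {x | ¬ Good A (γ, x)}) :=
    (good_def hA).not.comp (f := fun x : ℝ => (γ, x)) (by fun_prop)
  refine finite_of_countable hbadD ?_
  -- the exceptional countable set
  set S : ℕ → Set ℝ := fun k => {x | {y | (x, y) ∈ peel B k}.Nonempty} with hS
  have hSD : ∀ k, DPred L (fun x => x ∈ S k) := by
    intro k
    have : DPred L (fun x : ℝ => ∃ y : ℝ, (x, y) ∈ peel B k) := DPred.ex (peel_def hBD k)
    exact this
  have hSD' : ∀ k, DPred L (fun x => x ∈ (S k)ᶜ) := fun k => (hSD k).not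
  have hc : (⋃ k, ({x | ¬ ContinuousAt (mn (peel B k)) x} ∪
      ((S k \ interior (S k)) ∪ ((S k)ᶜ \ interior (S k)ᶜ)))).Countable := by
    refine countable_iUnion fun k => ?_
    exact (countable_not_continuousAt (mn_def (peel_def hBD k))).union
      ((diff_interior_finite (hSD k)).countable.union (diff_interior_finite (hSD' k)).countable)
  refine hc.mono ?_
  intro x hx
  by_contra hno
  rw [mem_iUnion] at hno
  push Not at hno
  refine hx ?_
  have hcont : ∀ k, ContinuousAt (mn (peel B k)) x := fun k => by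
    by_contra h; exact hno k (Or.inl h)
  have hin : ∀ k, x ∈ S k → ∀ᶠ x' in 𝓝 x, x' ∈ S k := fun k hk => by
    have : x ∈ interior (S k) := by
      by_contra h; exact hno k (Or.inr (Or.inl ⟨hk, h⟩))
    exact mem_interior_iff_mem_nhds.1 this
  have hout : ∀ k, x ∉ S k → ∀ᶠ x' in 𝓝 x, x' ∉ S k := fun k hk => by
    have : x ∈ interior (S k)ᶜ := by
      by_contra h; exact hno k (Or.inr (Or.inr ⟨hk, h⟩))
    exact mem_interior_iff_mem_nhds.1 this
  set n := {y | (x, y) ∈ B}.ncard with hn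
  -- the gap
  obtain ⟨δ, hδ, hgap⟩ : ∃ δ : ℝ, 0 < δ ∧ ∀ y z, (x, y) ∈ B → (x, z) ∈ B → |y - z| < 2 * δ → y = z := by
    have hfin : ((fun q : ℝ × ℝ => |q.1 - q.2|) '' ({y | (x, y) ∈ B} ×ˢ {y | (x, y) ∈ B}) \ {0}).Finite :=
      (((hBf x).prod (hBf x)).image _).subset sdiff_subset
    rcases ((fun q : ℝ × ℝ => |q.1 - q.2|) '' ({y | (x, y) ∈ B} ×ˢ {y | (x, y) ∈ B}) \
      {0}).eq_empty_or_nonempty with he | hne
    · refine ⟨1, one_pos, fun y z hy hz _ => ?_⟩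
      by_contra hyz
      have : |y - z| ∈ ((fun q : ℝ × ℝ => |q.1 - q.2|) '' ({y | (x, y) ∈ B} ×ˢ {y | (x, y) ∈ B}) \
        {0}) := ⟨⟨(y, z), ⟨hy, hz⟩, rfl⟩, by simpa [sub_eq_zero] using hyz⟩
      rw [he] at this
      exact this
    · obtain ⟨g, hg, hgmin⟩ := hfin.exists_minimalFor id _ hne
      have hg0 : 0 < g := by
        obtain ⟨⟨q, -, rfl⟩, h2⟩ := hg
        exact lt_of_le_of_ne (abs_nonneg _) (Ne.symm h2)
      refine ⟨g / 2, by positivity, fun y z hy hz hyz => ?_⟩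
      by_contra hne2
      have hmem : |y - z| ∈ ((fun q : ℝ × ℝ => |q.1 - q.2|) '' ({y | (x, y) ∈ B} ×ˢ {y | (x, y) ∈ B}) \
        {0}) := ⟨⟨(y, z), ⟨hy, hz⟩, rfl⟩, by simpa [sub_eq_zero] using hne2⟩
      have h1 : |y - z| < g := by linarith
      exact absurd (hgmin hmem h1.le) (not_le.2 h1)
  -- nearby fibres
  have hev : ∀ᶠ x' in 𝓝 x, (∀ k < n, x' ∈ S k) ∧ x' ∉ S n ∧
      ∀ k < n, |mn (peel B k) x - mn (peel B k) x'| < δ := by
    have e1 : ∀ᶠ x' in 𝓝 x, ∀ k ∈ Finset.range n, x' ∈ S k := by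
      rw [Filter.eventually_all_finset]
      intro k hk
      exact hin k ((peel_nonempty_iff (hBf x) k).2 (Finset.mem_range.1 hk))
    have e2 : ∀ᶠ x' in 𝓝 x, x' ∉ S n := by
      refine hout n fun h => ?_
      exact lt_irrefl _ ((peel_nonempty_iff (hBf x) n).1 h)
    have e3 : ∀ᶠ x' in 𝓝 x, ∀ k ∈ Finset.range n,
        |mn (peel B k) x - mn (peel B k) x'| < δ := by
      rw [Filter.eventually_all_finset]
      intro k _
      have := Metric.continuousAt_iff'.1 (hcont k) δ hδ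
      filter_upwards [this] with x' hx'
      rwa [Real.dist_eq, abs_sub_comm] at hx'
    filter_upwards [e1, e2, e3] with x' h1 h2 h3
    exact ⟨fun k hk => h1 k (Finset.mem_range.2 hk), h2, fun k hk => h3 k (Finset.mem_range.2 hk)⟩
  obtain ⟨ε, hε, hball⟩ := Metric.eventually_nhds_iff.1 hev
  refine ⟨δ, hδ, ε, hε, fun x' hx' => ?_⟩
  obtain ⟨g1, g2, g3⟩ := hball (show dist x' x < ε by simpa [Real.dist_eq] using hx')
  have hn' : {y | (x', y) ∈ B}.ncard = n := by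
    have a1 : ¬ n < {y | (x', y) ∈ B}.ncard := fun h => g2 ((peel_nonempty_iff (hBf x') n).2 h)
    rcases Nat.eq_zero_or_pos n with h0 | h0
    · omega
    · have a2 := (peel_nonempty_iff (hBf x') (n - 1)).1 (g1 (n - 1) (by omega))
      omega
  constructor
  · intro y' hy'
    obtain ⟨i, hi, rfl⟩ := branch_surj (hBf x') (show (x', y') ∈ B from hy')
    rw [hn'] at hi
    have hmem : (x, mn (peel B i) x) ∈ B := peel_sub B (Nat.zero_le i) (branch_mem (hBf x) hi)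
    refine ⟨mn (peel B i) x, hmem, g3 i hi, fun z hz hz2 => ?_⟩
    refine hgap _ _ hz hmem ?_
    have := g3 i hi
    rw [abs_sub_comm] at this
    calc |z - mn (peel B i) x| = |(z - mn (peel B i) x') + (mn (peel B i) x' - mn (peel B i) x)| := by
          congr 1; ring
      _ ≤ |z - mn (peel B i) x'| + |mn (peel B i) x' - mn (peel B i) x| := abs_add_le _ _
      _ < 2 * δ := by linarith
  · intro y hy
    obtain ⟨i, hi, rfl⟩ := branch_surj (hBf x) (show (x, y) ∈ B from hy)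
    have hmem : (x', mn (peel B i) x') ∈ B :=
      peel_sub B (Nat.zero_le i) (branch_mem (hBf x') (by rw [hn']; exact hi))
    refine ⟨mn (peel B i) x', hmem, g3 i hi, fun z hz hz2 => ?_⟩
    obtain ⟨j, hj, rfl⟩ := branch_surj (hBf x') (show (x', z) ∈ B from hz)
    rw [hn'] at hj
    have hmemj : (x, mn (peel B j) x) ∈ B := peel_sub B (Nat.zero_le j) (branch_mem (hBf x) hj)
    have h1 : mn (peel B i) x = mn (peel B j) x := by
      refine hgap _ _ (peel_sub B (Nat.zero_le i) (branch_mem (hBf x) hi)) hmemj ?_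
      have := g3 j hj
      rw [abs_sub_comm] at this
      calc |mn (peel B i) x - mn (peel B j) x|
          = |(mn (peel B i) x - mn (peel B j) x') + (mn (peel B j) x' - mn (peel B j) x)| := by
            congr 1; ring
        _ ≤ |mn (peel B i) x - mn (peel B j) x'| + |mn (peel B j) x' - mn (peel B j) x| :=
            abs_add_le _ _
        _ < 2 * δ := by linarith
    have h2 : i = j := by
      by_contra hij
      rcases lt_or_gt_of_ne hij with h | h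
      · exact branch_inj (hBf x) hj h h1
      · exact branch_inj (hBf x) hi h h1.symm
    rw [h2]

end Run7.h860.Om
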