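import Pool.Agent.Run7.h860.Om.Basic

set_option autoImplicit false

/-!
# Definable subsets of the real line and definable functions of one real variable
-/

open Set Filter Topology

namespace Run7.h860.Om

universe u v

variable {L : FirstOrder.Language.{u, v}} [L.Structure ℝ] [OMin L]

/-- o-minimality -/
theorem omin {S : Set ℝ} (hS : DPred L (fun x => x ∈ S)) :
    ∃ F : Set (Set ℝ), F.Finite ∧ (∀ I ∈ F, I.OrdConnected) ∧ S = ⋃₀ F := by
  refine OMin.omin (L := L) S ?_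
  exact hS.mem (f := fun x : Fin 1 → ℝ => x 0) (by fun_prop)

/-- countable order connected sets have at most one point -/
theorem subsingleton_of_countable {I : Set ℝ} (hI : I.OrdConnected) (hc : I.Countable) :
    I.Subsingleton := by
  intro a ha b hb
  by_contra hab
  rcases lt_or_gt_of_ne hab with h | h
  · exact not_le.2 h (Cardinal.Real.Icc_countable_iff.1 (hc.mono (hI.out ha hb)))
  · exact not_le.2 h (Cardinal.Real.Icc_countable_iff.1 (hc.mono (hI.out hb ha)))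

theorem finite_of_countable {S : Set ℝ} (hS : DPred L (fun x => x ∈ S)) (hc : S.Countable) :
    S.Finite := by
  obtain ⟨F, hF, hFo, rfl⟩ := omin hS
  refine hF.sUnion fun I hI => ?_
  exact (subsingleton_of_countable (hFo I hI) (hc.mono (subset_sUnion_of_mem hI))).finite

/-- infinite definable sets contain an interval -/
theorem exists_Ioo_of_infinite {S : Set ℝ} (hS : DPred L (fun x => x ∈ S)) (hc : S.Infinite) :
    ∃ a b : ℝ, a < b ∧ Ioo a b ⊆ S := by
  obtain ⟨F, hF, hFo, rfl⟩ := omin hS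
  have : ∃ I ∈ F, I.Infinite := by
    by_contra h
    push Not at h
    exact hc (hF.sUnion h)
  obtain ⟨I, hI, hinf⟩ := this
  obtain ⟨a, ha, b, hb, hab⟩ := hinf.nontrivial
  rcases lt_or_gt_of_ne hab with h | h
  · exact ⟨a, b, h, (Ioo_subset_Icc_self.trans ((hFo I hI).out ha hb)).trans
      (subset_sUnion_of_mem hI)⟩
  · exact ⟨b, a, h, (Ioo_subset_Icc_self.trans ((hFo I hI).out hb ha)).trans
      (subset_sUnion_of_mem hI)⟩

theorem finite_of_no_Ioo {S : Set ℝ} (hS : DPred L (fun x => x ∈ S))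
    (h : ∀ a b : ℝ, a < b → ¬ Ioo a b ⊆ S) : S.Finite := by
  by_contra hinf
  obtain ⟨a, b, hab, hsub⟩ := exists_Ioo_of_infinite hS hinf
  exact h a b hab hsub

/-- order connected sets near a point, on the right -/
theorem ordConnected_right {I : Set ℝ} (hI : I.OrdConnected) (x : ℝ) :
    (∃ ε > 0, Ioo x (x + ε) ⊆ I) ∨ ∃ ε > 0, Ioo x (x + ε) ∩ I = ∅ := by
  by_cases h : ∀ ε > 0, (Ioo x (x + ε) ∩ I).Nonempty
  · left
    obtain ⟨y, hy, hyI⟩ := h 1 one_pos
    refine ⟨y - x, by linarith [hy.1], ?_⟩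
    intro z hz
    obtain ⟨w, hw, hwI⟩ := h (z - x) (by linarith [hz.1])
    exact hI.out hwI hyI ⟨by linarith [hw.2], by linarith [hz.2]⟩
  · right
    push Not at h
    obtain ⟨ε, hε, h2⟩ := h
    exact ⟨ε, hε, h2⟩

/-- definable sets near a point, on the right -/
theorem right_dichotomy {S : Set ℝ} (hS : DPred L (fun x => x ∈ S)) (x : ℝ) :
    (∃ ε > 0, ∀ y, x < y → y < x + ε → y ∈ S) ∨ ∃ ε > 0, ∀ y, x < y → y < x + ε → y ∉ S := by
  obtain ⟨F, hF, hFo, rfl⟩ := omin hS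
  by_cases h : ∃ I ∈ F, ∃ ε > 0, Ioo x (x + ε) ⊆ I
  · left
    obtain ⟨I, hI, ε, hε, hsub⟩ := h
    exact ⟨ε, hε, fun y hy1 hy2 => ⟨I, hI, hsub ⟨hy1, hy2⟩⟩⟩
  · right
    have h2 : ∀ I ∈ F, ∃ ε > 0, Ioo x (x + ε) ∩ I = ∅ := fun I hI =>
      (ordConnected_right (hFo I hI) x).resolve_left fun h3 => h ⟨I, hI, h3⟩
    choose! ε hε hdis using h2
    obtain ⟨η, hη, hle⟩ : ∃ η > 0, ∀ I ∈ F, η ≤ ε I := by
      rcases F.eq_empty_or_nonempty with h3 | h3
      · exact ⟨1, one_pos, by simp [h3]⟩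
      · obtain ⟨I, hI, hmin⟩ := hF.exists_minimalFor ε F h3
        exact ⟨ε I, hε I hI, fun J hJ => by
          by_contra hlt
          push Not at hlt
          exact absurd (hmin hJ hlt.le) (not_le.2 hlt)⟩
    refine ⟨η, hη, ?_⟩
    rintro y hy1 hy2 ⟨I, hI, hyI⟩
    have : y ∈ Ioo x (x + ε I) ∩ I := ⟨⟨hy1, by linarith [hle I hI]⟩, hyI⟩
    rw [hdis I hI] at this
    exact this

/-- definable sets near a point, on the left -/
theorem left_dichotomy {S : Set ℝ} (hS : DPred L (fun x => x ∈ S)) (x : ℝ) :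
    (∃ ε > 0, ∀ y, x - ε < y → y < x → y ∈ S) ∨ ∃ ε > 0, ∀ y, x - ε < y → y < x → y ∉ S := by
  have hS' : DPred L (fun x : ℝ => x ∈ {y : ℝ | -y ∈ S}) := hS.mem (f := fun y => -y) (by fun_prop)
  rcases right_dichotomy hS' (-x) with ⟨ε, hε, h⟩ | ⟨ε, hε, h⟩
  · left
    refine ⟨ε, hε, fun y hy1 hy2 => ?_⟩
    have := h (-y) (by linarith) (by linarith)
    simpa using this
  · right
    refine ⟨ε, hε, fun y hy1 hy2 hyS => ?_⟩
    exact h (-y) (by linarith) (by linarith) (by simpa using hyS)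

/-- one of finitely many definable sets covering an interval contains an interval -/
theorem exists_sub {ι : Type*} [Finite ι] {S : ι → Set ℝ}
    (hS : ∀ i, DPred L (fun x => x ∈ S i)) {a b : ℝ} (hab : a < b) (hcov : Ioo a b ⊆ ⋃ i, S i) :
    ∃ i, ∃ c d : ℝ, c < d ∧ Ioo c d ⊆ S i ∩ Ioo a b := by
  have hinf : ∃ i, (S i ∩ Ioo a b).Infinite := by
    by_contra h
    push Not at h
    have h1 : (⋃ i, S i ∩ Ioo a b).Finite := Set.finite_iUnion fun i => by simpa using h i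
    have h2 : Ioo a b ⊆ ⋃ i, S i ∩ Ioo a b := fun x hx => by
      obtain ⟨i, hi⟩ := mem_iUnion.1 (hcov hx)
      exact mem_iUnion.2 ⟨i, hi, hx⟩
    exact (Ioo_infinite hab) (h1.subset h2)
  obtain ⟨i, hi⟩ := hinf
  have hD : DPred L (fun x : ℝ => x ∈ S i ∩ Ioo a b) :=
    (hS i).and ((DPred.lt (by fun_prop) (by fun_prop)).and (DPred.lt (by fun_prop) (by fun_prop)))
  obtain ⟨c, d, hcd, hsub⟩ := exists_Ioo_of_infinite hD hi
  exact ⟨i, c, d, hcd, hsub⟩

/-- the relation `r` holds between the values to the right of `x` and the value at `x` -/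
def Rt (r : ℝ → ℝ → Prop) (f : ℝ → ℝ) (x : ℝ) : Prop :=
  ∃ ε, 0 < ε ∧ ∀ y, x < y → y < x + ε → r (f y) (f x)

/-- the relation `r` holds between the values to the left of `x` and the value at `x` -/
def Lf (r : ℝ → ℝ → Prop) (f : ℝ → ℝ) (x : ℝ) : Prop :=
  ∃ ε, 0 < ε ∧ ∀ y, x - ε < y → y < x → r (f y) (f x)

theorem rt_cases {f : ℝ → ℝ} (hf : DFun L f) (x : ℝ) :
    Rt (· < ·) f x ∨ Rt (· = ·) f x ∨ Rt (· > ·) f x := by
  have h1 : DPred L (fun y : ℝ => y ∈ {y | f y < f x}) := DPred.lt hf (by fun_prop)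
  have h2 : DPred L (fun y : ℝ => y ∈ {y | f y = f x}) := DPred.eq hf (by fun_prop)
  rcases right_dichotomy h1 x with h | ⟨ε, hε, h⟩
  · exact Or.inl h
  rcases right_dichotomy h2 x with h' | ⟨ε', hε', h'⟩
  · exact Or.inr (Or.inl h')
  refine Or.inr (Or.inr ⟨min ε ε', lt_min hε hε', fun y hy1 hy2 => ?_⟩)
  have a1 := h y hy1 (by linarith [min_le_left ε ε'])
  have a2 := h' y hy1 (by linarith [min_le_right ε ε'])
  simp only [mem_ofPred_eq, not_lt] at a1 a2
  exact lt_of_le_of_ne a1 (Ne.symm a2)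

theorem lf_cases {f : ℝ → ℝ} (hf : DFun L f) (x : ℝ) :
    Lf (· < ·) f x ∨ Lf (· = ·) f x ∨ Lf (· > ·) f x := by
  have h1 : DPred L (fun y : ℝ => y ∈ {y | f y < f x}) := DPred.lt hf (by fun_prop)
  have h2 : DPred L (fun y : ℝ => y ∈ {y | f y = f x}) := DPred.eq hf (by fun_prop)
  rcases left_dichotomy h1 x with h | ⟨ε, hε, h⟩
  · exact Or.inl h
  rcases left_dichotomy h2 x with h' | ⟨ε', hε', h'⟩
  · exact Or.inr (Or.inl h')
  refine Or.inr (Or.inr ⟨min ε ε', lt_min hε hε', fun y hy1 hy2 => ?_⟩)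
  have a1 := h y (by linarith [min_le_left ε ε']) hy2
  have a2 := h' y (by linarith [min_le_right ε ε']) hy2
  simp only [mem_ofPred_eq, not_lt] at a1 a2
  exact lt_of_le_of_ne a1 (Ne.symm a2)

theorem rt_def {r : ℝ → ℝ → Prop} (hr : DPred L (fun p : ℝ × ℝ => r p.1 p.2)) {f : ℝ → ℝ}
    (hf : DFun L f) : DPred L (fun x => x ∈ {x | Rt r f x}) := by
  refine DPred.ex (DPred.and (DPred.lt (by fun_prop) (by fun_prop)) (DPred.all
    (DPred.imp (DPred.lt (by fun_prop) (by fun_prop)) (DPred.imp (DPred.lt (by fun_prop)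
      (by fun_prop)) (hr.comp (f := fun p : (ℝ × ℝ) × ℝ => (f p.2, f p.1.1)) (by fun_prop))))))

theorem lf_def {r : ℝ → ℝ → Prop} (hr : DPred L (fun p : ℝ × ℝ => r p.1 p.2)) {f : ℝ → ℝ}
    (hf : DFun L f) : DPred L (fun x => x ∈ {x | Lf r f x}) := by
  refine DPred.ex (DPred.and (DPred.lt (by fun_prop) (by fun_prop)) (DPred.all
    (DPred.imp (DPred.lt (by fun_prop) (by fun_prop)) (DPred.imp (DPred.lt (by fun_prop)
      (by fun_prop)) (hr.comp (f := fun p : (ℝ × ℝ) × ℝ => (f p.2, f p.1.1)) (by fun_prop))))))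

/-- a function does not have a strict local minimum everywhere -/
theorem not_strict_min {f : ℝ → ℝ} {a b : ℝ} (hab : a < b)
    (h : ∀ x ∈ Ioo a b, Rt (· > ·) f x ∧ Lf (· > ·) f x) : False := by
  have h1 : ∀ x ∈ Ioo a b, ∃ pq : ℚ × ℚ, (pq.1 : ℝ) < x ∧ x < pq.2 ∧
      ∀ y, (pq.1 : ℝ) < y → y < pq.2 → y ≠ x → f x < f y := by
    intro x hx
    obtain ⟨⟨ε, hε, h1⟩, ⟨ε', hε', h2⟩⟩ := h x hx
    obtain ⟨p, hp1, hp2⟩ := exists_rat_btwn (show x - ε' < x by linarith)
    obtain ⟨q, hq1, hq2⟩ := exists_rat_btwn (show x < x + ε by linarith)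
    refine ⟨(p, q), hp2, hq1, fun y hy1 hy2 hne => ?_⟩
    rcases lt_or_gt_of_ne hne with h3 | h3
    · exact h2 y (by linarith) h3
    · exact h1 y h3 (by linarith)
  choose! g hg1 hg2 hg3 using h1
  have hinj : InjOn g (Ioo a b) := by
    intro x hx x' hx' he
    by_contra hne
    have a1 := hg3 x hx x' (by rw [he]; exact hg1 x' hx') (by rw [he]; exact hg2 x' hx')
      (Ne.symm hne)
    have a2 := hg3 x' hx' x (by rw [← he]; exact hg1 x hx) (by rw [← he]; exact hg2 x hx) hne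
    exact lt_asymm a1 a2
  have hc : (Ioo a b).Countable :=
    MapsTo.countable_of_injOn (mapsTo_univ g _) hinj (countable_univ)
  exact not_le.2 hab (Cardinal.Real.Ioo_countable_iff.1 hc)

theorem not_strict_max {f : ℝ → ℝ} {a b : ℝ} (hab : a < b)
    (h : ∀ x ∈ Ioo a b, Rt (· < ·) f x ∧ Lf (· < ·) f x) : False := by
  refine not_strict_min (f := fun x => - f x) hab fun x hx => ?_
  obtain ⟨⟨ε, hε, h1⟩, ⟨ε', hε', h2⟩⟩ := h x hx
  exact ⟨⟨ε, hε, fun y a b => neg_lt_neg (h1 y a b)⟩, ⟨ε', hε', fun y a b => neg_lt_neg (h2 y a b)⟩⟩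

theorem lf_eq_of_rt {f : ℝ → ℝ} {a b : ℝ} (hab : a < b) (h : ∀ x ∈ Ioo a b, Rt (· = ·) f x) :
    ∃ x ∈ Ioo a b, Lf (· = ·) f x := by
  obtain ⟨x, hx⟩ := nonempty_Ioo.2 hab
  obtain ⟨ε, hε, h1⟩ := h x hx
  obtain ⟨y, hy1, hy2⟩ := exists_between (show x < min (x + ε) b from lt_min (by linarith) hx.2)
  have hy3 := lt_min_iff.1 hy2
  refine ⟨y, ⟨hx.1.trans hy1, hy3.2⟩, y - x, by linarith, fun z hz1 hz2 => ?_⟩
  rw [h1 y hy1 hy3.1]
  exact h1 z (by linarith) (by linarith)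

theorem rt_eq_of_lf {f : ℝ → ℝ} {a b : ℝ} (hab : a < b) (h : ∀ x ∈ Ioo a b, Lf (· = ·) f x) :
    ∃ x ∈ Ioo a b, Rt (· = ·) f x := by
  obtain ⟨x, hx⟩ := nonempty_Ioo.2 hab
  obtain ⟨ε, hε, h1⟩ := h x hx
  obtain ⟨y, hy1, hy2⟩ := exists_between (show max (x - ε) a < x from max_lt (by linarith) hx.1)
  have hy3 := max_lt_iff.1 hy1
  refine ⟨y, ⟨hy3.2, hy2.trans hx.2⟩, x - y, by linarith, fun z hz1 hz2 => ?_⟩
  rw [h1 y hy3.1 hy2]
  exact h1 z (by linarith) (by linarith)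

/-- functions increasing at each point are increasing -/
theorem strictMonoOn_of {f : ℝ → ℝ} {a b : ℝ}
    (h : ∀ x ∈ Ioo a b, Rt (· > ·) f x ∧ Lf (· < ·) f x) : StrictMonoOn f (Ioo a b) := by
  intro x hx y hy hxy
  set S : Set ℝ := {z | z ∈ Icc x y ∧ ∀ w, x < w → w ≤ z → f x < f w} with hS
  have hxS : x ∈ S := ⟨⟨le_rfl, hxy.le⟩, fun w h1 h2 => absurd h1 (not_lt.2 h2)⟩
  have hbdd : BddAbove S := ⟨y, fun z hz => hz.1.2⟩
  set s := sSup S with hs
  have hxs : x ≤ s := le_csSup hbdd hxS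
  have hsy : s ≤ y := csSup_le ⟨x, hxS⟩ fun z hz => hz.1.2
  have hsI : s ∈ Ioo a b := ⟨hx.1.trans_le hxs, hsy.trans_lt hy.2⟩
  -- below s everything is fine
  have hbelow : ∀ w, x < w → w < s → f x < f w := by
    intro w hw1 hw2
    obtain ⟨z, hz, hwz⟩ := exists_lt_of_lt_csSup ⟨x, hxS⟩ hw2
    exact hz.2 w hw1 hwz.le
  obtain ⟨⟨ε, hε, h1⟩, ⟨ε', hε', h2⟩⟩ := h s hsI
  have hle : f x ≤ f s := by
    rcases hxs.eq_or_lt with h3 | h3
    · rw [h3]
    · obtain ⟨w, hw1, hw2⟩ := exists_between (show max (s - ε') x < s from max_lt (by linarith) h3)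
      have hw3 := max_lt_iff.1 hw1
      exact ((hbelow w hw3.2 hw2).trans (h2 w hw3.1 hw2)).le
  have hlt : x < s → f x < f s := by
    intro h3
    obtain ⟨w, hw1, hw2⟩ := exists_between (show max (s - ε') x < s from max_lt (by linarith) h3)
    have hw3 := max_lt_iff.1 hw1
    exact (hbelow w hw3.2 hw2).trans (h2 w hw3.1 hw2)
  have hsy' : s = y := by
    by_contra hne
    have hsy2 : s < y := lt_of_le_of_ne hsy hne
    obtain ⟨z, hz1, hz2⟩ := exists_between (show s < min (s + ε) y from lt_min (by linarith) hsy2)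
    have hz3 := lt_min_iff.1 hz2
    have hzS : z ∈ S := by
      refine ⟨⟨hxs.trans hz1.le, hz3.2.le⟩, fun w hw1 hw2 => ?_⟩
      rcases lt_trichotomy w s with h4 | h4 | h4
      · exact hbelow w hw1 h4
      · rw [h4]; exact hlt (by rw [← h4]; exact hw1)
      · exact hle.trans_lt (h1 w h4 (by linarith))
    exact absurd (le_csSup hbdd hzS) (not_le.2 hz1)
  rw [← hsy']
  exact hlt (by rw [hsy']; exact hxy)

theorem strictAntiOn_of {f : ℝ → ℝ} {a b : ℝ}
    (h : ∀ x ∈ Ioo a b, Rt (· < ·) f x ∧ Lf (· > ·) f x) : StrictAntiOn f (Ioo a b) := by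
  have h1 : StrictMonoOn (fun x => - f x) (Ioo a b) := by
    refine strictMonoOn_of fun x hx => ?_
    obtain ⟨⟨ε, hε, h1⟩, ⟨ε', hε', h2⟩⟩ := h x hx
    exact ⟨⟨ε, hε, fun y a b => neg_lt_neg (h1 y a b)⟩,
      ⟨ε', hε', fun y a b => neg_lt_neg (h2 y a b)⟩⟩
  intro x hx y hy hxy
  exact neg_lt_neg_iff.1 (h1 hx hy hxy)

/-- the monotonicity theorem: a definable function is monotone on a subinterval of each interval -/
theorem monotone_sub {f : ℝ → ℝ} (hf : DFun L f) {a b : ℝ} (hab : a < b) :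
    ∃ c d : ℝ, c < d ∧ Ioo c d ⊆ Ioo a b ∧ (MonotoneOn f (Ioo c d) ∨ AntitoneOn f (Ioo c d)) := by
  have hlt : DPred L (fun p : ℝ × ℝ => p.1 < p.2) := DPred.lt (by fun_prop) (by fun_prop)
  have hgt : DPred L (fun p : ℝ × ℝ => p.1 > p.2) := DPred.lt (by fun_prop) (by fun_prop)
  have heq : DPred L (fun p : ℝ × ℝ => p.1 = p.2) := DPred.eq (by fun_prop) (by fun_prop)
  set r : Fin 3 → ℝ → ℝ → Prop := ![(· < ·), (· = ·), (· > ·)] with hr
  have hrD : ∀ i, DPred L (fun p : ℝ × ℝ => r i p.1 p.2) := by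
    intro i
    fin_cases i
    · exact hlt
    · exact heq
    · exact hgt
  obtain ⟨⟨i, j⟩, c, d, hcd, hsub⟩ := exists_sub (L := L)
    (S := fun ij : Fin 3 × Fin 3 => {x | Rt (r ij.1) f x ∧ Lf (r ij.2) f x})
    (fun ij => (rt_def (hrD _) hf).and (lf_def (hrD _) hf)) hab (by
      intro x _
      rw [mem_iUnion]
      have h1 : ∃ i, Rt (r i) f x := by
        rcases rt_cases hf x with h | h | h
        · exact ⟨0, h⟩
        · exact ⟨1, h⟩
        · exact ⟨2, h⟩
      have h2 : ∃ i, Lf (r i) f x := by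
        rcases lf_cases hf x with h | h | h
        · exact ⟨0, h⟩
        · exact ⟨1, h⟩
        · exact ⟨2, h⟩
      obtain ⟨i, hi⟩ := h1
      obtain ⟨j, hj⟩ := h2
      exact ⟨(i, j), hi, hj⟩)
  have hR : ∀ x ∈ Ioo c d, Rt (r i) f x := fun x hx => (hsub hx).1.1
  have hL : ∀ x ∈ Ioo c d, Lf (r j) f x := fun x hx => (hsub hx).1.2
  have hsub2 : Ioo c d ⊆ Ioo a b := fun x hx => (hsub hx).2
  -- the types are exclusive
  have hexL : ∀ (j j' : Fin 3) (x : ℝ), Lf (r j) f x → Lf (r j') f x → j = j' := by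
    rintro j j' x ⟨ε, hε, h1⟩ ⟨ε', hε', h2⟩
    obtain ⟨y, hy1, hy2⟩ := exists_between (show max (x - ε) (x - ε') < x from
      max_lt (by linarith) (by linarith))
    have hy3 := max_lt_iff.1 hy1
    have a1 := h1 y hy3.1 hy2
    have a2 := h2 y hy3.2 hy2
    fin_cases j <;> fin_cases j' <;> simp [hr] at a1 a2 ⊢ <;> linarith
  have hexR : ∀ (j j' : Fin 3) (x : ℝ), Rt (r j) f x → Rt (r j') f x → j = j' := by
    rintro j j' x ⟨ε, hε, h1⟩ ⟨ε', hε', h2⟩
    obtain ⟨y, hy1, hy2⟩ := exists_between (show x < min (x + ε) (x + ε') from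
      lt_min (by linarith) (by linarith))
    have hy3 := lt_min_iff.1 hy2
    have a1 := h1 y hy1 hy3.1
    have a2 := h2 y hy1 hy3.2
    fin_cases j <;> fin_cases j' <;> simp [hr] at a1 a2 ⊢ <;> linarith
  refine ⟨c, d, hcd, hsub2, ?_⟩
  by_cases hi1 : i = 1
  · -- constant
    subst hi1
    obtain ⟨x, hx, hx2⟩ := lf_eq_of_rt hcd hR
    have hj : j = 1 := hexL _ 1 x (hL x hx) hx2
    subst hj
    left
    -- locally constant, so continuous with zero derivative
    have hder : ∀ x ∈ Ioo c d, HasDerivAt f 0 x := by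
      intro x hx
      obtain ⟨ε, hε, h1⟩ := hR x hx
      obtain ⟨ε', hε', h2⟩ := hL x hx
      have : f =ᶠ[𝓝 x] fun _ => f x := by
        filter_upwards [Ioo_mem_nhds (show x - ε' < x by linarith) (show x < x + ε by linarith)]
          with y hy
        rcases lt_trichotomy y x with h | h | h
        · exact h2 y hy.1 h
        · rw [h]
        · exact h1 y h hy.2
      exact (hasDerivAt_const x (f x)).congr_of_eventuallyEq this
    refine monotoneOn_of_deriv_nonneg (convex_Ioo c d)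
      (fun x hx => (hder x hx).continuousAt.continuousWithinAt)
      (fun x hx => (hder x (interior_subset hx)).differentiableAt.differentiableWithinAt) ?_
    intro x hx
    rw [(hder x (interior_subset hx)).deriv]
  by_cases hj1 : j = 1
  · subst hj1
    obtain ⟨x, hx, hx2⟩ := rt_eq_of_lf hcd hL
    exact absurd (hexR _ 1 x (hR x hx) hx2) hi1
  have hi2 : i = 0 ∨ i = 2 := by omega
  have hj2 : j = 0 ∨ j = 2 := by omega
  rcases hi2 with rfl | rfl <;> rcases hj2 with rfl | rfl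
  · exact (not_strict_max hcd fun x hx => ⟨hR x hx, hL x hx⟩).elim
  · exact Or.inr (strictAntiOn_of fun x hx => ⟨hR x hx, hL x hx⟩).antitoneOn
  · exact Or.inl (strictMonoOn_of fun x hx => ⟨hR x hx, hL x hx⟩).monotoneOn
  · exact (not_strict_min hcd fun x hx => ⟨hR x hx, hL x hx⟩).elim

/-- every interval contains a point of differentiability of a definable function -/
theorem exists_differentiableAt {f : ℝ → ℝ} (hf : DFun L f) {a b : ℝ} (hab : a < b) :
    ∃ x ∈ Ioo a b, DifferentiableAt ℝ f x := by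
  obtain ⟨c, d, hcd, hsub, hm⟩ := monotone_sub hf hab
  have hae : ∀ᵐ x, x ∈ Ioo c d → DifferentiableWithinAt ℝ f (Ioo c d) x := by
    rcases hm with h | h
    · exact h.ae_differentiableWithinAt_of_mem
    · have h2 : MonotoneOn (fun x => - f x) (Ioo c d) := fun x hx y hy hxy =>
        neg_le_neg (h hx hy hxy)
      filter_upwards [h2.ae_differentiableWithinAt_of_mem] with x hx hxI
      simpa using (hx hxI).neg
  have hpos : (0 : ENNReal) < MeasureTheory.volume (Ioo c d) := by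
    rw [Real.volume_Ioo]; simp [hcd]
  by_contra hno
  push Not at hno
  have hz : MeasureTheory.volume (Ioo c d) = 0 := by
    refine MeasureTheory.measure_mono_null ?_ (MeasureTheory.ae_iff.1 hae)
    intro x hx hx2
    have := (hx2 hx).differentiableAt (Ioo_mem_nhds hx.1 hx.2)
    exact hno x (hsub hx) this
  exact hpos.ne' hz

end Run7.h860.Om
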