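import Pool.Agent.Run7.h860.Om.Line

set_option autoImplicit false

/-!
# Definable sets without interior are null sets
-/

open Set Filter Topology MeasureTheory

namespace Run7.h860.Om

universe u v

variable {L : FirstOrder.Language.{u, v}} [L.Structure ℝ]

@[fun_prop]
theorem DFun.consR {Γ : Type} [Ctx Γ] {m : ℕ} {f : Γ → ℝ} {g : Γ → Fin m → ℝ} (hf : DFun L f)
    (hg : DFun L g) : DFun L (fun x => (Fin.cons (f x) (g x) : Fin (m + 1) → ℝ)) := by
  refine DFun.pi fun i => ?_
  refine Fin.cases ?_ (fun j => ?_) i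
  · simpa using! hf
  · simpa using! (DFun.apply' j).comp hg

@[fun_prop]
theorem DFun.tailR {Γ : Type} [Ctx Γ] {m : ℕ} {g : Γ → Fin (m + 1) → ℝ}
    (hg : DFun L g) : DFun L (fun x => (Fin.tail (g x) : Fin m → ℝ)) :=
  DFun.pi fun i => (DFun.apply' i.succ).comp hg

theorem volume_cons {m : ℕ} (G : Set (Fin (m + 1) → ℝ)) :
    volume G = (volume : Measure (ℝ × (Fin m → ℝ))) {p | (Fin.cons p.1 p.2 : Fin (m + 1) → ℝ) ∈ G} := by
  have h := (volume_preserving_piFinSuccAbove (fun _ : Fin (m + 1) => ℝ) 0).symm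
  rw [← h.measure_preimage_equiv G]
  congr 1
  ext p
  have : (MeasurableEquiv.piFinSuccAbove (fun _ : Fin (m + 1) => ℝ) 0).symm p =
      (Fin.cons p.1 p.2 : Fin (m + 1) → ℝ) := by
    simp [MeasurableEquiv.piFinSuccAbove]
    rfl
  rw [mem_preimage, this]
  rfl

/-- preimages of null sets under the projection are null -/
theorem volume_tail {m : ℕ} {Z : Set (Fin m → ℝ)} (hZ : volume Z = 0) :
    volume {z : Fin (m + 1) → ℝ | Fin.tail z ∈ Z} = 0 := by
  rw [volume_cons]
  have : {p : ℝ × (Fin m → ℝ) | (Fin.cons p.1 p.2 : Fin (m + 1) → ℝ) ∈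
      {z : Fin (m + 1) → ℝ | Fin.tail z ∈ Z}} = univ ×ˢ Z := by
    ext p; simp
  rw [this, Measure.volume_eq_prod, Measure.prod_prod, hZ, mul_zero]

/-- graphs of almost everywhere measurable functions are null -/
theorem volume_graph {m : ℕ} {H : (Fin m → ℝ) → ℝ} (hH : AEMeasurable H) :
    volume {z : Fin (m + 1) → ℝ | z 0 = H (Fin.tail z)} = 0 := by
  have h1 : volume {z : Fin (m + 1) → ℝ | z 0 = hH.mk H (Fin.tail z)} = 0 := by
    rw [volume_cons]
    have hm : MeasurableSet {p : ℝ × (Fin m → ℝ) | p.1 = hH.mk H p.2} :=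
      measurableSet_eq_fun measurable_fst (hH.measurable_mk.comp measurable_snd)
    have h2 : {p : ℝ × (Fin m → ℝ) | (Fin.cons p.1 p.2 : Fin (m + 1) → ℝ) ∈
        {z : Fin (m + 1) → ℝ | z 0 = hH.mk H (Fin.tail z)}} = {p | p.1 = hH.mk H p.2} := by
      ext p; simp
    rw [h2, Measure.volume_eq_prod, Measure.prod_apply_symm hm]
    have : ∀ y : Fin m → ℝ, volume ((fun x : ℝ => (x, y)) ⁻¹' {p : ℝ × (Fin m → ℝ) | p.1 = hH.mk H p.2})
        = 0 := by
      intro y
      have : (fun x : ℝ => (x, y)) ⁻¹' {p : ℝ × (Fin m → ℝ) | p.1 = hH.mk H p.2} = {hH.mk H y} := by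
        ext x; simp
      rw [this, Real.volume_singleton]
    simp
  have h3 : volume {x : Fin m → ℝ | H x ≠ hH.mk H x} = 0 := ae_iff.1 hH.ae_eq_mk
  refine measure_mono_null ?_ (measure_union_null h1 (volume_tail h3))
  intro z hz
  by_cases h : H (Fin.tail z) = hH.mk H (Fin.tail z)
  · left
    simp only [mem_ofPred_eq] at hz ⊢
    rw [hz, h]
  · exact Or.inr h

/-- Functions with null measurable sublevel sets. -/
theorem aemeasurable_of_lt {α : Type*} [MeasurableSpace α] {μ : Measure α} {H : α → ℝ}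
    (h : ∀ c, NullMeasurableSet {x | H x < c} μ) : AEMeasurable H μ := by
  have h1 : NullMeasurable H μ := by
    have : @Measurable (NullMeasurableSpace α μ) ℝ _ _ H :=
      @measurable_of_Iio ℝ (NullMeasurableSpace α μ) _ _ _ _ _ _ _ H h
    exact this
  exact h1.aemeasurable

variable [OMin L]

theorem interior_def {m : ℕ} {E : Set (Fin m → ℝ)} (hE : DPred L (fun x => x ∈ E)) :
    DPred L (fun x => x ∈ interior E) := by
  have h : DPred L (fun x : Fin m → ℝ => ∃ ε : ℝ, 0 < ε ∧ ∀ y : Fin m → ℝ,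
      (∀ i, |y i - x i| < ε) → y ∈ E) := by
    refine DPred.ex (DPred.and (DPred.lt (by fun_prop) (by fun_prop)) (DPred.all
      (DPred.imp (DPred.allFin fun i => DPred.lt (by fun_prop) (by fun_prop))
        (hE.mem (by fun_prop)))))
  refine h.congr fun x => ?_
  rw [mem_interior_iff_mem_nhds, Metric.mem_nhds_iff]
  constructor
  · rintro ⟨ε, hε, h1⟩
    refine ⟨ε, hε, fun y hy => h1 y fun i => ?_⟩
    rw [Metric.mem_ball, dist_pi_lt_iff hε] at hy
    simpa [Real.dist_eq] using hy i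
  · rintro ⟨ε, hε, h1⟩
    refine ⟨ε, hε, fun y hy => h1 ?_⟩
    rw [Metric.mem_ball, dist_pi_lt_iff hε]
    intro i
    simpa [Real.dist_eq] using hy i

variable (L) in
/-- Definable sets without interior in `ℝ^m` are null sets. -/
def NullProp (m : ℕ) : Prop :=
  ∀ E : Set (Fin m → ℝ), DPred L (fun x => x ∈ E) → interior E = ∅ → volume E = 0

theorem interior_diff {m : ℕ} (E : Set (Fin m → ℝ)) : interior (E \ interior E) = ∅ := by
  rw [eq_empty_iff_forall_notMem]
  intro x hx
  have h1 : interior (E \ interior E) ⊆ interior E := interior_mono sdiff_subset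
  exact (interior_subset hx).2 (h1 hx)

theorem NullProp.diff {m : ℕ} (h : NullProp L m) {E : Set (Fin m → ℝ)}
    (hE : DPred L (fun x => x ∈ E)) : volume (E \ interior E) = 0 :=
  h _ (hE.and (interior_def hE).not) (interior_diff E)

theorem NullProp.nullMeasurableSet {m : ℕ} (h : NullProp L m) {E : Set (Fin m → ℝ)}
    (hE : DPred L (fun x => x ∈ E)) : NullMeasurableSet E volume := by
  have h1 : E = interior E ∪ (E \ interior E) := (union_sdiff_cancel interior_subset).symm
  rw [h1]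
  exact isOpen_interior.measurableSet.nullMeasurableSet.union (NullMeasurableSet.of_null (h.diff hE))

omit [OMin L] in
theorem nullProp_zero : NullProp L 0 := by
  intro E _ hi
  have : E = ∅ := by
    rw [eq_empty_iff_forall_notMem]
    intro x hx
    have h1 : E = univ := by
      ext y; simp [Subsingleton.elim y x, hx]
    rw [h1, interior_univ] at hi
    exact absurd hi (Set.univ_nonempty.ne_empty)
  rw [this, measure_empty]

theorem nullProp_succ {m : ℕ} (ih : NullProp L m) : NullProp L (m + 1) := by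
  classical
  intro E hE hi
  -- intervals contained in the fibres
  set A : ℚ × ℚ → Set (Fin m → ℝ) := fun q =>
    {x | (q.1 : ℝ) < q.2 ∧ ∀ y : ℝ, (q.1 : ℝ) < y → y < q.2 → (Fin.cons y x : Fin (m + 1) → ℝ) ∈ E}
    with hA
  have hAD : ∀ q, DPred L (fun x => x ∈ A q) := by
    intro q
    refine DPred.and (DPred.lt (by fun_prop) (by fun_prop)) (DPred.all (DPred.imp
      (DPred.lt (by fun_prop) (by fun_prop)) (DPred.imp (DPred.lt (by fun_prop) (by fun_prop))
        (hE.mem (by fun_prop)))))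
  have hA0 : ∀ q, volume (A q) = 0 := by
    intro q
    refine ih _ (hAD q) ?_
    rw [eq_empty_iff_forall_notMem]
    intro x hx
    have hq : (q.1 : ℝ) < q.2 := (interior_subset hx).1
    obtain ⟨y, hy1, hy2⟩ := exists_between hq
    have hopen : IsOpen {z : Fin (m + 1) → ℝ | z 0 ∈ Ioo (q.1 : ℝ) q.2 ∧ Fin.tail z ∈ interior (A q)} := by
      refine IsOpen.and (isOpen_Ioo.preimage (continuous_apply 0)) ?_
      exact isOpen_interior.preimage (continuous_pi fun i => continuous_apply i.succ)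
    have hsub : {z : Fin (m + 1) → ℝ | z 0 ∈ Ioo (q.1 : ℝ) q.2 ∧ Fin.tail z ∈ interior (A q)} ⊆ E := by
      rintro z ⟨hz1, hz2⟩
      have := (interior_subset hz2).2 (z 0) hz1.1 hz1.2
      rwa [Fin.cons_self_tail] at this
    have : (Fin.cons y x : Fin (m + 1) → ℝ) ∈ interior E :=
      interior_maximal hsub hopen ⟨by simpa using ⟨hy1, hy2⟩, by simpa using hx⟩
    rw [hi] at this
    exact this
  set Z : Set (Fin m → ℝ) := ⋃ q, A q with hZ
  have hZ0 : volume Z = 0 := measure_iUnion_null hA0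
  -- isolated points of the fibres
  set D : ℚ × ℚ → Set (Fin m → ℝ) := fun q => {x | ∃ y : ℝ, (q.1 : ℝ) < y ∧ y < q.2 ∧
    (Fin.cons y x : Fin (m + 1) → ℝ) ∈ E ∧ ∀ y' : ℝ, (q.1 : ℝ) < y' → y' < q.2 →
      (Fin.cons y' x : Fin (m + 1) → ℝ) ∈ E → y' = y} with hD
  have hDc : ∀ (q : ℚ × ℚ) (c : ℝ), DPred L (fun x : Fin m → ℝ => ∃ y : ℝ, ((q.1 : ℝ) < y ∧ y < q.2 ∧
    (Fin.cons y x : Fin (m + 1) → ℝ) ∈ E ∧ ∀ y' : ℝ, (q.1 : ℝ) < y' → y' < q.2 →
      (Fin.cons y' x : Fin (m + 1) → ℝ) ∈ E → y' = y) ∧ y < c) := by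
    intro q c
    refine DPred.ex (DPred.and (DPred.and (DPred.lt (by fun_prop) (by fun_prop)) (DPred.and
      (DPred.lt (by fun_prop) (by fun_prop)) (DPred.and (hE.mem (by fun_prop)) (DPred.all
      (DPred.imp (DPred.lt (by fun_prop) (by fun_prop)) (DPred.imp
      (DPred.lt (by fun_prop) (by fun_prop)) (DPred.imp
        (hE.mem (f := fun p : ((Fin m → ℝ) × ℝ) × ℝ => (Fin.cons p.2 p.1.1 : Fin (m + 1) → ℝ))
        (by fun_prop)) (DPred.eq (by fun_prop) (by fun_prop)))))))))
      (DPred.lt (by fun_prop) (by fun_prop)))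
  choose! H hH1 hH2 hH3 hH4 using fun (q : ℚ × ℚ) (x : Fin m → ℝ) (hx : x ∈ D q) => hx
  have hDD : ∀ q, DPred L (fun x => x ∈ D q) := by
    intro q
    refine (hDc q (q.2 + 1)).congr fun x => ?_
    constructor
    · rintro ⟨y, hy, -⟩
      exact ⟨y, hy⟩
    · rintro ⟨y, hy⟩
      exact ⟨y, hy, by linarith [hy.2.1]⟩
  set K : ℚ × ℚ → (Fin m → ℝ) → ℝ := fun q x => if x ∈ D q then H q x else 0 with hK
  have hKm : ∀ q, AEMeasurable (K q) volume := by
    intro q
    refine aemeasurable_of_lt fun c => ?_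
    have h1 : {x | K q x < c} = {x : Fin m → ℝ | ∃ y : ℝ, ((q.1 : ℝ) < y ∧ y < q.2 ∧
      (Fin.cons y x : Fin (m + 1) → ℝ) ∈ E ∧ ∀ y' : ℝ, (q.1 : ℝ) < y' → y' < q.2 →
      (Fin.cons y' x : Fin (m + 1) → ℝ) ∈ E → y' = y) ∧ y < c} ∪ {x | x ∉ D q ∧ (0:ℝ) < c} := by
      ext x
      simp only [hK, mem_ofPred_eq, mem_union]
      by_cases hx : x ∈ D q
      · simp only [hx, if_true, not_true_eq_false, false_and, or_false]
        constructor
        · intro h
          exact ⟨H q x, ⟨hH1 q x hx, hH2 q x hx, hH3 q x hx, hH4 q x hx⟩, h⟩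
        · rintro ⟨y, ⟨h1, h2, h3, h4⟩, h5⟩
          have := h4 _ (hH1 q x hx) (hH2 q x hx) (hH3 q x hx)
          rw [this]; exact h5
      · simp only [hx, if_false, not_false_eq_true, true_and]
        constructor
        · intro h; exact Or.inr h
        · rintro (⟨y, hy, -⟩ | h)
          · exact absurd ⟨y, hy⟩ hx
          · exact h
    rw [h1]
    exact (ih.nullMeasurableSet (hDc q c)).union (ih.nullMeasurableSet
      ((hDD q).not.and (DPred.const _)))
  have hcover : E ⊆ {z | Fin.tail z ∈ Z} ∪ ⋃ q, {z : Fin (m + 1) → ℝ | z 0 = K q (Fin.tail z)} := by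
    intro z hz
    by_cases hzZ : Fin.tail z ∈ Z
    · exact Or.inl hzZ
    right
    set S : Set ℝ := {y | (Fin.cons y (Fin.tail z) : Fin (m + 1) → ℝ) ∈ E} with hS
    have hSD : DPred L (fun y => y ∈ S) := hE.mem (by fun_prop)
    have hSf : S.Finite := by
      refine finite_of_no_Ioo hSD fun a b hab hsub => hzZ ?_
      obtain ⟨p, hp1, hp2⟩ := exists_rat_btwn hab
      obtain ⟨q, hq1, hq2⟩ := exists_rat_btwn hp2
      refine mem_iUnion.2 ⟨(p, q), by exact_mod_cast hq1, fun y hy1 hy2 => ?_⟩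
      exact hsub ⟨hp1.trans hy1, hy2.trans hq2⟩
    have hz0 : z 0 ∈ S := by rw [hS, mem_ofPred_eq, Fin.cons_self_tail]; exact hz
    -- z 0 is isolated in S
    have hiso : ∀ᶠ y in 𝓝 (z 0), y ∉ S \ {z 0} :=
      ((hSf.subset sdiff_subset).isClosed.isOpen_compl).mem_nhds (by simp)
    obtain ⟨ε, hε, hball⟩ := Metric.eventually_nhds_iff.1 hiso
    obtain ⟨p, hp1, hp2⟩ := exists_rat_btwn (show z 0 - ε < z 0 by linarith)
    obtain ⟨q, hq1, hq2⟩ := exists_rat_btwn (show z 0 < z 0 + ε by linarith)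
    have huniq : ∀ y : ℝ, (p : ℝ) < y → y < q → y ∈ S → y = z 0 := by
      intro y hy1 hy2 hyS
      by_contra hne
      exact hball (show dist y (z 0) < ε by
        rw [Real.dist_eq, abs_lt]; constructor <;> linarith) ⟨hyS, hne⟩
    have hxD : Fin.tail z ∈ D (p, q) := ⟨z 0, hp2, hq1, hz0, huniq⟩
    refine mem_iUnion.2 ⟨(p, q), ?_⟩
    simp only [mem_ofPred_eq, hK, hxD, if_true]
    exact (huniq _ (hH1 (p, q) _ hxD) (hH2 (p, q) _ hxD) (hH3 (p, q) _ hxD)).symm
  exact measure_mono_null hcover (measure_union_null (volume_tail hZ0)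
    (measure_iUnion_null fun q => volume_graph (hKm q)))

theorem nullProp (m : ℕ) : NullProp L m := by
  induction m with
  | zero => exact nullProp_zero
  | succ m ih => exact nullProp_succ ih

theorem volume_diff_interior {m : ℕ} {E : Set (Fin m → ℝ)}
    (hE : DPred L (fun x => x ∈ E)) : volume (E \ interior E) = 0 := (nullProp m).diff hE

theorem nullMeasurableSet {m : ℕ} {E : Set (Fin m → ℝ)}
    (hE : DPred L (fun x => x ∈ E)) : NullMeasurableSet E volume := (nullProp m).nullMeasurableSet hE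

end Run7.h860.Om
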