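import Pool.Agent.Run7.h860.Om.Null

set_option autoImplicit false

/-!
# Definable functions are locally Lipschitz and differentiable almost everywhere
-/

open Set Filter Topology MeasureTheory

namespace Run7.h860.Om

universe u v

variable {L : FirstOrder.Language.{u, v}} [L.Structure ℝ] [OMin L]

omit [OMin L] in
@[fun_prop]
theorem DFun.updateR {Γ : Type} [Ctx Γ] {m : ℕ} {f : Γ → Fin m → ℝ} {g : Γ → ℝ} (i : Fin m)
    (hf : DFun L f) (hg : DFun L g) : DFun L (fun x => Function.update (f x) i (g x)) := by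
  refine DFun.pi fun j => ?_
  by_cases h : j = i
  · subst h
    simpa using hg
  · simpa [Function.update_of_ne h] using (DFun.apply' j).comp hf

/-- the graph of the derivative, in elementary terms -/
theorem hasDerivAt_iff {f : ℝ → ℝ} {c x : ℝ} : HasDerivAt f c x ↔
    ∀ ε : ℝ, 0 < ε → ∃ η : ℝ, 0 < η ∧ ∀ h : ℝ, |h| < η → |f (x + h) - f x - c * h| ≤ ε * |h| := by
  rw [hasDerivAt_iff_isLittleO_nhds_zero, Asymptotics.isLittleO_iff]
  constructor
  · intro H ε hε
    obtain ⟨η, hη, h1⟩ := Metric.eventually_nhds_iff.1 (H hε)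
    refine ⟨η, hη, fun h hh => ?_⟩
    have := h1 (show dist h 0 < η by simpa [Real.dist_eq] using hh)
    simpa [mul_comm] using this
  · intro H ε hε
    obtain ⟨η, hη, h1⟩ := H ε hε
    refine Metric.eventually_nhds_iff.2 ⟨η, hη, fun h hh => ?_⟩
    have := h1 h (by simpa [Real.dist_eq] using hh)
    simpa [mul_comm] using this

theorem hasDerivAt_def {Γ : Type} [Ctx Γ] {G : Γ → ℝ → ℝ} (hG : DFun L (fun p : Γ × ℝ => G p.1 p.2))
    {c x : Γ → ℝ} (hc : DFun L c) (hx : DFun L x) :
    DPred L (fun γ => HasDerivAt (G γ) (c γ) (x γ)) := by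
  have h : DPred L (fun γ : Γ => ∀ ε : ℝ, 0 < ε → ∃ η : ℝ, 0 < η ∧ ∀ h : ℝ, |h| < η →
      |G γ (x γ + h) - G γ (x γ) - c γ * h| ≤ ε * |h|) := by
    refine DPred.all (DPred.imp (DPred.lt (by fun_prop) (by fun_prop)) (DPred.ex (DPred.and
      (DPred.lt (by fun_prop) (by fun_prop)) (DPred.all (DPred.imp
      (DPred.lt (by fun_prop) (by fun_prop)) (DPred.le ?_ (by fun_prop)))))))
    refine DFun.abs (DFun.sub (DFun.sub ?_ ?_) (by fun_prop))
    · exact hG.comp (f := fun p : ((Γ × ℝ) × ℝ) × ℝ => (p.1.1.1, x p.1.1.1 + p.2)) (by fun_prop)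
    · exact hG.comp (f := fun p : ((Γ × ℝ) × ℝ) × ℝ => (p.1.1.1, x p.1.1.1)) (by fun_prop)
  exact h.congr fun γ => hasDerivAt_iff.symm

variable {m : ℕ}

/-- the partial derivatives exist and are bounded by `K` -/
def bdd (F : (Fin m → ℝ) → ℝ) (K : ℝ) : Set (Fin m → ℝ) :=
  {x | ∀ i, ∃ c : ℝ, |c| ≤ K ∧ HasDerivAt (fun s => F (Function.update x i s)) c (x i)}

theorem bdd_def {F : (Fin m → ℝ) → ℝ} (hF : DFun L F) (K : ℝ) : DPred L (fun x => x ∈ bdd F K) := by
  refine DPred.allFin fun i => DPred.ex (DPred.and (DPred.le (by fun_prop) (by fun_prop)) ?_)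
  exact hasDerivAt_def (Γ := (Fin m → ℝ) × ℝ) (G := fun p s => F (Function.update p.1 i s))
    (by fun_prop) (by fun_prop) (by fun_prop)

/-- partial derivatives exist almost everywhere -/
theorem partial_null {F : (Fin m → ℝ) → ℝ} (hF : DFun L F) (i : Fin m) :
    volume {x : Fin m → ℝ | ¬ ∃ c : ℝ, HasDerivAt (fun s => F (Function.update x i s)) c (x i)} = 0 := by
  refine nullProp (L := L) m _ ?_ ?_
  · refine DPred.not (DPred.ex ?_)
    exact hasDerivAt_def (Γ := (Fin m → ℝ) × ℝ) (G := fun p s => F (Function.update p.1 i s))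
      (by fun_prop) (by fun_prop) (by fun_prop)
  · rw [eq_empty_iff_forall_notMem]
    intro x hx
    rw [mem_interior_iff_mem_nhds, Metric.mem_nhds_iff] at hx
    obtain ⟨ε, hε, hball⟩ := hx
    have hf : DFun L (fun s : ℝ => F (Function.update x i s)) := hF.comp (by fun_prop)
    obtain ⟨s, hs, hd⟩ := exists_differentiableAt hf (show x i - ε < x i + ε by linarith)
    have hmem : Function.update x i s ∈ Metric.ball x ε := by
      rw [Metric.mem_ball, dist_pi_lt_iff hε]
      intro j
      by_cases h : j = i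
      · subst h
        rw [Function.update_self, Real.dist_eq, abs_lt]
        constructor <;> linarith [hs.1, hs.2]
      · rw [Function.update_of_ne h, dist_self]; exact hε
    refine hball hmem ⟨deriv (fun s => F (Function.update x i s)) s, ?_⟩
    have h2 : (fun t => F (Function.update (Function.update x i s) i t)) =
        fun t => F (Function.update x i t) := by
      ext t; rw [Function.update_idem]
    rw [h2, Function.update_self]
    exact hd.hasDerivAt

/-- almost every point has a neighbourhood on which the partial derivatives are bounded -/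
theorem ae_interior_bdd {ι : Type*} [Finite ι] {F : ι → (Fin m → ℝ) → ℝ} (hF : ∀ j, DFun L (F j)) :
    ∀ᵐ x : Fin m → ℝ, ∃ K : ℕ, x ∈ interior (⋂ j, bdd (F j) K) := by
  have h1 : ∀ᵐ x : Fin m → ℝ, ∀ j, ∀ i, ∃ c : ℝ,
      HasDerivAt (fun s => F j (Function.update x i s)) c (x i) := by
    rw [ae_all_iff]
    intro j
    rw [ae_all_iff]
    intro i
    exact partial_null (hF j) i
  have h2 : ∀ᵐ x : Fin m → ℝ, ∀ K : ℕ, x ∉ (⋂ j, bdd (F j) K) \ interior (⋂ j, bdd (F j) K) := by
    rw [ae_all_iff]
    intro K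
    rw [ae_iff]
    simp only [not_not]
    refine volume_diff_interior (L := L) ?_
    exact (DPred.allFin fun j => bdd_def (hF j) K).congr fun x => by simp
  filter_upwards [h1, h2] with x hx1 hx2
  choose c hc using hx1
  cases nonempty_fintype ι
  obtain ⟨K, hK⟩ := exists_nat_ge (∑ j, ∑ i, |c j i|)
  refine ⟨K, ?_⟩
  by_contra hno
  refine hx2 K ⟨mem_iInter.2 fun j i => ⟨c j i, ?_, hc j i⟩, hno⟩
  calc |c j i| ≤ ∑ i, |c j i| :=
        Finset.single_le_sum (f := fun i => |c j i|) (fun _ _ => abs_nonneg _) (Finset.mem_univ i)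
    _ ≤ ∑ j, ∑ i, |c j i| := Finset.single_le_sum (f := fun j => ∑ i, |c j i|)
        (fun _ _ => Finset.sum_nonneg fun _ _ => abs_nonneg _) (Finset.mem_univ j)
    _ ≤ K := hK

/-- bounded partial derivatives on a cube -/
theorem lip_of_bdd {F : (Fin m → ℝ) → ℝ} {K : ℝ} {x : Fin m → ℝ} {ε : ℝ} (hε : 0 < ε)
    (h : Metric.ball x ε ⊆ bdd F K) {y z : Fin m → ℝ} (hy : y ∈ Metric.ball x ε)
    (hz : z ∈ Metric.ball x ε) : |F z - F y| ≤ K * ∑ i, |z i - y i| := by
  classical
  have hy' : ∀ i, |y i - x i| < ε := by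
    rw [Metric.mem_ball, dist_pi_lt_iff hε] at hy
    intro i; simpa [Real.dist_eq] using hy i
  have hz' : ∀ i, |z i - x i| < ε := by
    rw [Metric.mem_ball, dist_pi_lt_iff hε] at hz
    intro i; simpa [Real.dist_eq] using hz i
  have key : ∀ s : Finset (Fin m), |F (s.piecewise z y) - F y| ≤ K * ∑ i ∈ s, |z i - y i| := by
    intro s
    induction s using Finset.induction_on with
    | empty => simp
    | insert i s his ih =>
      set w := s.piecewise z y with hw
      have hw' : ∀ j, |w j - x j| < ε := by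
        intro j
        by_cases hj : j ∈ s
        · rw [hw, Finset.piecewise_eq_of_mem _ _ _ hj]; exact hz' j
        · rw [hw, Finset.piecewise_eq_of_notMem _ _ _ hj]; exact hy' j
      have hwi : w i = y i := Finset.piecewise_eq_of_notMem _ _ _ his
      have hmem : ∀ t : ℝ, |t - x i| < ε → Function.update w i t ∈ Metric.ball x ε := by
        intro t ht
        rw [Metric.mem_ball, dist_pi_lt_iff hε]
        intro j
        by_cases hj : j = i
        · subst hj; rw [Function.update_self, Real.dist_eq]; exact ht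
        · rw [Function.update_of_ne hj, Real.dist_eq]; exact hw' j
      have hder : ∀ t : ℝ, |t - x i| < ε → ∃ c : ℝ, |c| ≤ K ∧
          HasDerivAt (fun s => F (Function.update w i s)) c t := by
        intro t ht
        obtain ⟨c, hc, hd⟩ := h (hmem t ht) i
        refine ⟨c, hc, ?_⟩
        have h2 : (fun s => F (Function.update (Function.update w i t) i s)) =
            fun s => F (Function.update w i s) := by
          ext s; rw [Function.update_idem]
        rwa [h2, Function.update_self] at hd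
      choose! c hc hd using hder
      have hconv : Convex ℝ {t : ℝ | |t - x i| < ε} := by
        have : {t : ℝ | |t - x i| < ε} = Metric.ball (x i) ε := by
          ext t; simp [Real.dist_eq]
        rw [this]; exact convex_ball _ _
      have hmv := hconv.norm_image_sub_le_of_norm_hasDerivWithin_le
        (f := fun s => F (Function.update w i s)) (f' := c) (C := K)
        (fun t ht => (hd t ht).hasDerivWithinAt) (fun t ht => hc t ht)
        (x := y i) (y := z i) (hy' i) (hz' i)
      rw [Finset.piecewise_insert, Finset.sum_insert his, mul_add]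
      have h3 : F (Function.update w i (y i)) = F w := by rw [← hwi, Function.update_eq_self]
      calc |F (Function.update w i (z i)) - F y|
          = |(F (Function.update w i (z i)) - F (Function.update w i (y i))) + (F w - F y)| := by
            rw [h3]; congr 1; ring
        _ ≤ |F (Function.update w i (z i)) - F (Function.update w i (y i))| + |F w - F y| :=
            abs_add_le _ _
        _ ≤ _ := add_le_add hmv ih
  simpa using key Finset.univ

/-- vector valued definable maps are Lipschitz near almost every point -/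
theorem ae_locally_lip {n : ℕ} {G : (Fin m → ℝ) → Fin n → ℝ} (hG : DFun L G) :
    ∀ᵐ x : Fin m → ℝ, ∃ C : NNReal, ∃ ε > 0, LipschitzOnWith C G (Metric.ball x ε) := by
  filter_upwards [ae_interior_bdd (F := fun j x => G x j) (L := L) (fun j => by fun_prop)]
    with x hx
  obtain ⟨K, hK⟩ := hx
  rw [mem_interior_iff_mem_nhds, Metric.mem_nhds_iff] at hK
  obtain ⟨ε, hε, hball⟩ := hK
  refine ⟨K * m, ε, hε, ?_⟩
  refine LipschitzOnWith.of_dist_le_mul fun y hy z hz => ?_
  rw [dist_pi_le_iff (by positivity)]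
  intro j
  have h1 := lip_of_bdd hε (F := fun x => G x j) (fun w hw => mem_iInter.1 (hball hw) j) hz hy
  rw [Real.dist_eq]
  refine h1.trans ?_
  have h2 : ∑ i, |y i - z i| ≤ m * dist y z := by
    calc ∑ i, |y i - z i| ≤ ∑ _i : Fin m, dist y z := Finset.sum_le_sum fun i _ => by
          rw [← Real.dist_eq]; exact dist_le_pi_dist y z i
      _ = m * dist y z := by simp
  calc (K:ℝ) * ∑ i, |y i - z i| ≤ K * (m * dist y z) := by gcongr
    _ = _ := by push_cast; ring

/-- countably many balls on which a definable map is Lipschitz -/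
theorem exists_pieces {n : ℕ} {G : (Fin m → ℝ) → Fin n → ℝ} (hG : DFun L G) :
    ∃ P : ℕ → Set (Fin m → ℝ), (∀ k, IsOpen (P k)) ∧ volume (⋃ k, P k)ᶜ = 0 ∧
      ∀ k, ∃ C : NNReal, LipschitzOnWith C G (P k) := by
  set U : Set (Fin m → ℝ) := {x | ∃ C : NNReal, ∃ ε > 0, LipschitzOnWith C G (Metric.ball x ε)}
    with hU
  choose! C ε hε hlip using fun (x : Fin m → ℝ) (hx : x ∈ U) => hx
  obtain ⟨t, htU, htc, hcov⟩ := TopologicalSpace.countable_cover_nhdsWithin (s := U)
    (f := fun x => Metric.ball x (ε x))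
    (fun x hx => mem_nhdsWithin_of_mem_nhds (Metric.ball_mem_nhds x (hε x hx)))
  have hae : volume Uᶜ = 0 := ae_locally_lip (L := L) hG
  rcases t.eq_empty_or_nonempty with rfl | hne
  · refine ⟨fun _ => ∅, fun _ => isOpen_empty, ?_, fun _ => ⟨0, by simp⟩⟩
    have : U = ∅ := by
      rw [← subset_empty_iff]
      simpa using hcov
    rw [this] at hae
    simpa using hae
  · obtain ⟨g, rfl⟩ := htc.exists_eq_range hne
    refine ⟨fun k => Metric.ball (g k) (ε (g k)), fun k => Metric.isOpen_ball, ?_, fun k =>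
      ⟨C (g k), hlip _ (htU (mem_range_self k))⟩⟩
    refine measure_mono_null (compl_subset_compl.2 ?_) hae
    intro x hx
    have := hcov hx
    simpa using this

/-- definable maps are differentiable almost everywhere -/
theorem ae_differentiableAt {n : ℕ} {G : (Fin m → ℝ) → Fin n → ℝ} (hG : DFun L G) :
    ∀ᵐ x : Fin m → ℝ, DifferentiableAt ℝ G x := by
  obtain ⟨P, hPo, hP0, hPL⟩ := exists_pieces (L := L) hG
  have h1 : ∀ᵐ x : Fin m → ℝ, ∀ k, x ∈ P k → DifferentiableWithinAt ℝ G (P k) x := by
    rw [ae_all_iff]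
    intro k
    obtain ⟨C, hC⟩ := hPL k
    exact hC.ae_differentiableWithinAt_of_mem
  have h2 : ∀ᵐ x : Fin m → ℝ, x ∈ ⋃ k, P k := hP0
  filter_upwards [h1, h2] with x hx1 hx2
  obtain ⟨k, hk⟩ := mem_iUnion.1 hx2
  exact (hx1 k hk).differentiableAt ((hPo k).mem_nhds hk)

end Run7.h860.Om
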