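import Pool.Agent.Run7.h860.Om.Fibres

set_option autoImplicit false

/-!
# Uniform finiteness and definable choice
-/

open Set Filter Topology MeasureTheory

namespace Run7.h860.Om

universe u v

variable {L : FirstOrder.Language.{u, v}} [L.Structure ℝ] [OMin L]

variable (L) in
/-- Uniform finiteness over `Γ`. -/
def UF (Γ : Type) [Ctx Γ] : Prop :=
  ∀ A : Set (Γ × ℝ), DPred L (fun p => p ∈ A) → (∀ γ, {y | (γ, y) ∈ A}.Finite) →
    ∃ N : ℕ, ∀ γ, {y | (γ, y) ∈ A}.ncard ≤ N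

variable {Γ : Type} [Ctx Γ]

omit [Ctx Γ] in
theorem ncard_const {A : Set ((Γ × ℝ) × ℝ)} {γ : Γ} {I : Set ℝ} (hI : IsPreconnected I)
    (hgood : ∀ x ∈ I, Good A (γ, x)) {x x' : ℝ} (hx : x ∈ I) (hx' : x' ∈ I) :
    {y | ((γ, x), y) ∈ A}.ncard = {y | ((γ, x'), y) ∈ A}.ncard := by
  refine hI.constant (Y := ℕ) (f := fun x => {y | ((γ, x), y) ∈ A}.ncard) ?_ hx hx'
  intro z hz
  have h := (hgood z hz).ncard_eq
  refine ContinuousAt.continuousWithinAt ?_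
  exact (continuousAt_const (y := {y | ((γ, z), y) ∈ A}.ncard)).congr (h.mono fun _ h => h.symm)

theorem UF.step (h : UF L Γ) : UF L (Γ × ℝ) := by
  intro A hA hf
  set P : Set (Γ × ℝ) := {p | ¬ Good A p} with hP
  have hPD : DPred L (fun p => p ∈ P) := (good_def hA).not
  have hPf : ∀ γ, {x | (γ, x) ∈ P}.Finite := fun γ => bad_finite hA γ fun x => hf (γ, x)
  set A' : Set (Γ × ℝ) := {p | ∃ x : ℝ, x ∈ reps {x | (p.1, x) ∈ P} ∧ ((p.1, x), p.2) ∈ A} with hA'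
  have hA'D : DPred L (fun p => p ∈ A') := by
    refine DPred.ex (DPred.and ?_ (hA.mem (f := fun p : (Γ × ℝ) × ℝ => ((p.1.1, p.2), p.1.2))
      (by fun_prop)))
    exact (reps_def hPD).comp (f := fun p : (Γ × ℝ) × ℝ => (p.1.1, p.2)) (by fun_prop)
  have hA'f : ∀ γ, {y | (γ, y) ∈ A'}.Finite := by
    intro γ
    have : {y | (γ, y) ∈ A'} = ⋃ x ∈ reps {x | (γ, x) ∈ P}, {y | ((γ, x), y) ∈ A} := by
      ext y; simp [hA']
    rw [this]
    exact (reps_finite (hPf γ)).biUnion fun x _ => hf (γ, x)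
  obtain ⟨N, hN⟩ := h A' hA'D hA'f
  refine ⟨N, ?_⟩
  rintro ⟨γ, x⟩
  obtain ⟨x', hx', h1⟩ := exists_rep (hPf γ) x
  have heq : {y | ((γ, x), y) ∈ A}.ncard = {y | ((γ, x'), y) ∈ A}.ncard := by
    rcases h1 with rfl | ⟨I, hI, hIP, hxI, hx'I⟩
    · rfl
    · refine ncard_const hI (fun z hz => ?_) hxI hx'I
      by_contra hbad
      have : z ∈ I ∩ {x | (γ, x) ∈ P} := ⟨hz, hbad⟩
      rw [hIP] at this
      exact this
  rw [heq]
  refine le_trans (ncard_le_ncard (fun y hy => ?_) (hA'f γ)) (hN γ)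
  exact ⟨x', hx', hy⟩

omit [OMin L] in
theorem UF.of_surj {Γ' : Type} [Ctx Γ'] (h : UF L Γ) {φ : Γ → Γ'} (hφ : DFun L φ)
    (hs : Function.Surjective φ) : UF L Γ' := by
  intro A hA hf
  obtain ⟨N, hN⟩ := h {p | (φ p.1, p.2) ∈ A} (hA.mem (f := fun p : Γ × ℝ => (φ p.1, p.2))
    (by fun_prop)) (fun γ => hf (φ γ))
  refine ⟨N, fun γ' => ?_⟩
  obtain ⟨γ, rfl⟩ := hs γ'
  exact hN γ

theorem uf_fin (m : ℕ) : UF L (Fin m → ℝ) := by
  induction m with
  | zero =>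
    intro A _ hf
    refine ⟨{y | ((fun _ => 0 : Fin 0 → ℝ), y) ∈ A}.ncard, fun γ => ?_⟩
    rw [Subsingleton.elim γ (fun _ => 0)]
  | succ m ih =>
    refine ih.step.of_surj (φ := fun p => (Fin.cons p.2 p.1 : Fin (m + 1) → ℝ)) (by fun_prop) ?_
    intro z
    exact ⟨(Fin.tail z, z 0), Fin.cons_self_tail z⟩

/-- every context is covered by some `ℝ^n` -/
theorem uf (Γ : Type) [Ctx Γ] : UF L Γ := by
  cases nonempty_fintype (Ctx.idx Γ)
  set n := Fintype.card (Ctx.idx Γ) with hn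
  set σ : Ctx.idx Γ ≃ Fin n := Fintype.equivFin _ with hσ
  refine (uf_fin n).of_surj (φ := fun z : Fin n → ℝ => (Ctx.e.symm (fun i => z (σ i)) : Γ)) ?_ ?_
  · have h1 : DFun L (fun z : Fin n → ℝ => (fun i : Ctx.idx Γ => z (σ i))) :=
      DFun.pi fun i => DFun.apply' (σ i)
    exact DFun.dec.comp h1
  · intro γ
    refine ⟨fun j => Ctx.e γ (σ.symm j), ?_⟩
    simp

/-- **Uniform finiteness.**  A definable family of countable subsets of `ℝ^d` has fibres of bounded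
size. -/
theorem uniform_finite {d : ℕ} {A : Set (Γ × (Fin d → ℝ))} (hA : DPred L (fun p => p ∈ A))
    (hc : ∀ γ, {v | (γ, v) ∈ A}.Countable) : ∃ N : ℕ, ∀ γ, {v | (γ, v) ∈ A}.encard ≤ N := by
  have h1 : ∀ j : Fin d, ∃ N : ℕ, ∀ γ : Γ,
      {s : ℝ | ∃ v : Fin d → ℝ, (γ, v) ∈ A ∧ v j = s}.Finite ∧
      {s : ℝ | ∃ v : Fin d → ℝ, (γ, v) ∈ A ∧ v j = s}.ncard ≤ N := by
    intro j
    have hD : DPred L (fun p : Γ × ℝ => ∃ v : Fin d → ℝ, (p.1, v) ∈ A ∧ v j = p.2) := by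
      refine DPred.ex (DPred.and (hA.mem (f := fun p : (Γ × ℝ) × (Fin d → ℝ) => (p.1.1, p.2))
        (by fun_prop)) (DPred.eq (by fun_prop) (by fun_prop)))
    have hfin : ∀ γ : Γ, {s : ℝ | ∃ v : Fin d → ℝ, (γ, v) ∈ A ∧ v j = s}.Finite := by
      intro γ
      refine finite_of_countable (L := L) (hD.comp (f := fun s : ℝ => (γ, s)) (by fun_prop)) ?_
      have : {s : ℝ | ∃ v : Fin d → ℝ, (γ, v) ∈ A ∧ v j = s} = (fun v => v j) '' {v | (γ, v) ∈ A} := by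
        ext s; simp
      rw [this]
      exact (hc γ).image _
    obtain ⟨N, hN⟩ := uf (L := L) Γ {p | ∃ v : Fin d → ℝ, (p.1, v) ∈ A ∧ v j = p.2} hD hfin
    exact ⟨N, fun γ => ⟨hfin γ, hN γ⟩⟩
  choose N hN using h1
  refine ⟨∏ j, N j, fun γ => ?_⟩
  set T : Fin d → Finset ℝ := fun j => (hN j γ).1.toFinset with hT
  have hsub : {v | (γ, v) ∈ A} ⊆ ((Fintype.piFinset T : Finset (Fin d → ℝ)) : Set (Fin d → ℝ)) := by
    intro v hv
    rw [Finset.mem_coe, Fintype.mem_piFinset]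
    intro j
    rw [hT, Finite.mem_toFinset]
    exact ⟨v, hv, rfl⟩
  refine (encard_le_encard hsub).trans ?_
  rw [encard_coe_eq_coe_finsetCard, Fintype.card_piFinset]
  have : ∏ j, (T j).card ≤ ∏ j, N j := by
    refine Finset.prod_le_prod' fun j _ => ?_
    have := (hN j γ).2
    rwa [ncard_eq_toFinset_card _ (hN j γ).1] at this
  exact_mod_cast this

/-! ### Definable choice -/

theorem frontier_finite {S : Set ℝ} (hS : DPred L (fun x => x ∈ S)) : (frontier S).Finite := by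
  have hS' : DPred L (fun x => x ∈ Sᶜ) := hS.not
  refine ((diff_interior_finite hS).union (diff_interior_finite hS')).subset ?_
  intro x hx
  rw [frontier_eq_closure_inter_closure] at hx
  by_cases h : x ∈ S
  · left
    refine ⟨h, fun h2 => ?_⟩
    have := hx.2
    rw [closure_compl] at this
    exact this h2
  · right
    refine ⟨h, fun h2 => ?_⟩
    rw [interior_compl] at h2
    exact h2 hx.1

theorem choice1 {B : Set (Γ × ℝ)} (hB : DPred L (fun p => p ∈ B)) :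
    ∃ q : Γ → ℝ, DFun L q ∧ ∀ γ, {y | (γ, y) ∈ B}.Nonempty → (γ, q γ) ∈ B := by
  set P : Set (Γ × ℝ) := {p | ∀ ε : ℝ, 0 < ε → (∃ y : ℝ, |y - p.2| < ε ∧ (p.1, y) ∈ B) ∧
    ∃ y : ℝ, |y - p.2| < ε ∧ (p.1, y) ∉ B} with hP
  have hPD : DPred L (fun p => p ∈ P) := by
    refine DPred.all (DPred.imp (DPred.lt (by fun_prop) (by fun_prop)) (DPred.and
      (DPred.ex (DPred.and (DPred.lt (by fun_prop) (by fun_prop))
        (hB.mem (f := fun p : ((Γ × ℝ) × ℝ) × ℝ => (p.1.1.1, p.2)) (by fun_prop))))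
      (DPred.ex (DPred.and (DPred.lt (by fun_prop) (by fun_prop))
        (hB.mem (f := fun p : ((Γ × ℝ) × ℝ) × ℝ => (p.1.1.1, p.2)) (by fun_prop)).not))))
  have hPfr : ∀ γ, {x | (γ, x) ∈ P} = frontier {y | (γ, y) ∈ B} := by
    intro γ
    ext x
    rw [frontier_eq_closure_inter_closure, mem_inter_iff, Metric.mem_closure_iff,
      Metric.mem_closure_iff]
    constructor
    · intro h
      refine ⟨fun ε hε => ?_, fun ε hε => ?_⟩
      · obtain ⟨y, hy1, hy2⟩ := (h ε hε).1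
        exact ⟨y, hy2, by rw [dist_comm, Real.dist_eq]; exact hy1⟩
      · obtain ⟨y, hy1, hy2⟩ := (h ε hε).2
        exact ⟨y, hy2, by rw [dist_comm, Real.dist_eq]; exact hy1⟩
    · rintro ⟨h1, h2⟩ ε hε
      obtain ⟨y, hy1, hy2⟩ := h1 ε hε
      obtain ⟨z, hz1, hz2⟩ := h2 ε hε
      rw [dist_comm, Real.dist_eq] at hy2 hz2
      exact ⟨⟨y, hy2, hy1⟩, ⟨z, hz2, hz1⟩⟩
  have hBγ : ∀ γ, DPred L (fun y : ℝ => y ∈ {y | (γ, y) ∈ B}) := fun γ =>
    hB.mem (f := fun y : ℝ => (γ, y)) (by fun_prop)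
  have hPf : ∀ γ, {x | (γ, x) ∈ P}.Finite := fun γ => by
    rw [hPfr]; exact frontier_finite (hBγ γ)
  set R : Set (Γ × ℝ) := {p | p.2 ∈ reps {x | (p.1, x) ∈ P} ∧ p ∈ B} with hR
  have hRD : DPred L (fun p => p ∈ R) := (reps_def hPD).and hB
  have hRf : ∀ γ, {y | (γ, y) ∈ R}.Finite := fun γ =>
    (reps_finite (hPf γ)).subset fun y hy => hy.1
  refine ⟨mn R, mn_def hRD, fun γ hne => ?_⟩
  suffices h : {y | (γ, y) ∈ R}.Nonempty from (mn_mem (hRf γ) h).2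
  obtain ⟨y, hy⟩ := hne
  obtain ⟨y', hy', h1⟩ := exists_rep (hPf γ) y
  refine ⟨y', hy', ?_⟩
  rcases h1 with rfl | ⟨I, hI, hIP, hyI, hy'I⟩
  · exact hy
  · -- membership is constant on `I`
    show (γ, y') ∈ B
    have h2 : I ∩ frontier {y | (γ, y) ∈ B} = ∅ := by rw [← hPfr]; exact hIP
    by_contra hno
    set T : Set ℝ := {y | (γ, y) ∈ B} with hT
    have hcov : ∀ z ∈ I, z ∈ interior T ∨ z ∈ interior Tᶜ := by
      intro z hz
      by_contra hz2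
      push Not at hz2
      have : z ∈ I ∩ frontier T := by
        refine ⟨hz, ?_⟩
        rw [frontier_eq_closure_inter_closure, ← compl_compl (closure T), ← interior_compl]
        refine ⟨hz2.2, ?_⟩
        rw [closure_compl]
        exact hz2.1
      rw [h2] at this
      exact this
    obtain ⟨z, -, hz1, hz2⟩ := hI (interior T) (interior Tᶜ) isOpen_interior isOpen_interior hcov
      ⟨y, hyI, (hcov y hyI).resolve_right fun h => (interior_subset h) hy⟩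
      ⟨y', hy'I, (hcov y' hy'I).resolve_left fun h =>
        hno (show y' ∈ T from interior_subset h)⟩
    exact (interior_subset hz2) (interior_subset hz1)

/-- **Definable choice.** -/
theorem choice (d : ℕ) : ∀ (Γ : Type) [Ctx Γ] (Q : Set (Γ × (Fin d → ℝ))),
    DPred L (fun p => p ∈ Q) →
    ∃ q : Γ → Fin d → ℝ, DFun L q ∧ ∀ γ, {v | (γ, v) ∈ Q}.Nonempty → (γ, q γ) ∈ Q := by
  induction d with
  | zero =>
    intro Γ _ Q _
    refine ⟨fun _ _ => 0, by fun_prop, fun γ hne => ?_⟩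
    obtain ⟨v, hv⟩ := hne
    have : v = fun _ => 0 := Subsingleton.elim _ _
    rw [← this]; exact hv
  | succ d ih =>
    intro Γ _ Q hQ
    obtain ⟨q0, hq0, h0⟩ := choice1 (L := L) (B := {p : Γ × ℝ | ∃ w : Fin d → ℝ,
      (p.1, (Fin.cons p.2 w : Fin (d + 1) → ℝ)) ∈ Q})
      (DPred.ex (hQ.mem (f := fun p : (Γ × ℝ) × (Fin d → ℝ) =>
        (p.1.1, (Fin.cons p.1.2 p.2 : Fin (d + 1) → ℝ))) (by fun_prop)))
    obtain ⟨q1, hq1, h1⟩ := ih Γ {p : Γ × (Fin d → ℝ) |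
      (p.1, (Fin.cons (q0 p.1) p.2 : Fin (d + 1) → ℝ)) ∈ Q}
      (hQ.mem (f := fun p : Γ × (Fin d → ℝ) => (p.1, (Fin.cons (q0 p.1) p.2 : Fin (d + 1) → ℝ)))
        (by fun_prop))
    refine ⟨fun γ => Fin.cons (q0 γ) (q1 γ), by fun_prop, fun γ hne => ?_⟩
    obtain ⟨v, hv⟩ := hne
    have h2 : ∃ w : Fin d → ℝ, (γ, (Fin.cons (q0 γ) w : Fin (d + 1) → ℝ)) ∈ Q :=
      h0 γ ⟨v 0, Fin.tail v, by simpa using hv⟩
    obtain ⟨w, hw⟩ := h2
    exact h1 γ ⟨w, hw⟩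

end Run7.h860.Om
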